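import Pool.Agent.R692.HL.Kernel

/-! # Supports of the kernel, spheres and geodesics -/

namespace Pool.Agent.R692.HL

open Finset

variable {V : Type*} (G : SimpleGraph V) [G.LocallyFinite] {d : ℕ}

lemma exists_pred (hc : G.Connected) {g h : V} {m : ℕ} (hd : G.dist g h = m + 1) :
    ∃ w, G.Adj h w ∧ G.dist g w = m := by
  obtain ⟨p, hp⟩ := hc.exists_walk_length_eq_dist h g
  rw [SimpleGraph.dist_comm, hd] at hp
  cases p with
  | nil => simp at hp
  | cons hadj q =>
    rename_i w
    refine ⟨w, hadj, ?_⟩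
    simp only [SimpleGraph.Walk.length_cons, Nat.add_right_cancel_iff] at hp
    have h1 := SimpleGraph.dist_le q
    have h2 := hc.dist_triangle (u := g) (v := w) (w := h)
    have h3 : G.dist w h ≤ 1 := by
      have := SimpleGraph.dist_eq_one_iff_adj.mpr hadj.symm
      omega
    rw [SimpleGraph.dist_comm] at h1
    omega

lemma dist_adj_ge (hc : G.Connected) {g h w : V} (hadj : G.Adj h w) :
    G.dist g h ≤ G.dist g w + 1 := by
  have h2 := hc.dist_triangle (u := g) (v := w) (w := h)
  have h3 : G.dist w h = 1 := SimpleGraph.dist_eq_one_iff_adj.mpr hadj.symm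
  omega

lemma k_supp_aux (hc : G.Connected) (m : ℕ) :
    (∀ g h, m ≤ G.dist g h → k G d m g h = 0) ∧
    (∀ g h, m + 1 ≤ G.dist g h → k G d (m + 1) g h = 0) ∧
    (∀ g h, G.dist g h = m → 0 < (-1 : ℤ) ^ m * k G d (m + 1) g h) := by
  classical
  induction m with
  | zero =>
    refine ⟨fun g h _ => by simp [k_zero], fun g h hgh => ?_, fun g h hgh => ?_⟩
    · have : g ≠ h := by rintro rfl; simp at hgh
      simp [k_one, this]
    · have : g = h := (hc.dist_eq_zero_iff).mp hgh
      simp [k_one, this]
  | succ m ih =>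
    obtain ⟨h1, h2, h3⟩ := ih
    have e : ∀ g h, k G d (((m + 1 : ℕ) : ℤ) + 1) g h = ((d : ℤ) + 2) * k G d (m + 1) g h
      - ∑ w ∈ G.neighborFinset h, k G d (m + 1) g w - k G d m g h := by
      intro g h
      rw [k_add_one]
      push_cast
      rw [add_sub_cancel_right]
    refine ⟨fun g h hgh => by simpa using h2 g h hgh, fun g h hgh => ?_, fun g h hgh => ?_⟩
    · rw [e, h2 g h (by omega), h1 g h (by omega), Finset.sum_eq_zero]
      · ring
      · intro w hw
        rw [SimpleGraph.mem_neighborFinset] at hw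
        have := dist_adj_ge G hc (g := g) hw
        exact h2 g w (by omega)
    · rw [e, h2 g h (by omega), h1 g h (by omega)]
      have : (-1 : ℤ) ^ (m + 1) * (((d : ℤ) + 2) * 0 - ∑ w ∈ G.neighborFinset h, k G d (m + 1) g w - 0)
          = ∑ w ∈ G.neighborFinset h, (-1 : ℤ) ^ m * k G d (m + 1) g w := by
        rw [← Finset.mul_sum]; ring
      rw [this]
      obtain ⟨w0, hw0, hw1⟩ := exists_pred G hc hgh
      apply Finset.sum_pos'
      · intro w hw
        rw [SimpleGraph.mem_neighborFinset] at hw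
        have := dist_adj_ge G hc (g := g) hw
        rcases (show m ≤ G.dist g w by omega).eq_or_lt with h4 | h4
        · exact (h3 g w h4.symm).le
        · rw [h2 g w (by omega)]; simp
      · exact ⟨w0, by simpa using hw0, h3 g w0 hw1⟩

lemma k_eq_zero_nat (hc : G.Connected) (m : ℕ) {g h : V} (hgh : m ≤ G.dist g h) :
    k G d m g h = 0 := (k_supp_aux G hc m).1 g h hgh

lemma k_sign_nat (hc : G.Connected) (m : ℕ) {g h : V} (hgh : G.dist g h = m) :
    0 < (-1 : ℤ) ^ m * k G d (m + 1) g h := (k_supp_aux G hc m).2.2 g h hgh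

lemma k_eq_zero (hc : G.Connected) (n : ℤ) {g h : V} (hgh : n.natAbs ≤ G.dist g h) :
    k G d n g h = 0 := by
  have := k_natAbs G (d := d) n g h
  rw [k_eq_zero_nat G hc _ hgh, abs_zero] at this
  exact abs_eq_zero.mp this

/-- the sign on the outer sphere -/
lemma k_sign (hc : G.Connected) (n : ℤ) {g h : V} (hgh : G.dist g h + 1 = n.natAbs) :
    0 < n.sign * (-1 : ℤ) ^ (G.dist g h) * k G d n g h := by
  rcases Int.eq_nat_or_neg n with ⟨m, rfl | rfl⟩
  · simp only [Int.natAbs_natCast] at hgh
    subst hgh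
    have := k_sign_nat G (d := d) hc (G.dist g h) rfl
    push_cast
    rw [Int.sign_eq_one_of_pos (by positivity), one_mul]
    exact this
  · simp only [Int.natAbs_neg, Int.natAbs_natCast] at hgh
    subst hgh
    have := k_sign_nat G (d := d) hc (G.dist g h) rfl
    rw [k_neg]
    push_cast
    rw [Int.sign_eq_neg_one_of_neg (by linarith [show (0:ℤ) ≤ G.dist g h by positivity])]
    linarith

lemma k_ne_zero (hc : G.Connected) (n : ℤ) {g h : V} (hgh : G.dist g h + 1 = n.natAbs) :
    k G d n g h ≠ 0 := by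
  intro h0
  have := k_sign G (d := d) hc n hgh
  rw [h0, mul_zero] at this
  exact lt_irrefl _ this

lemma sphere_finite (hc : G.Connected) (g : V) (r : ℕ) : {h | G.dist g h = r}.Finite := by
  apply Set.Finite.subset (row G 0 (r + 1) g).support.finite_toSet
  intro h hh
  simp only [Set.mem_setOf_eq] at hh
  simp only [Finset.mem_coe, Finsupp.mem_support_iff]
  exact k_ne_zero G (d := 0) hc ((r : ℤ) + 1) (g := g) (h := h) (by rw [hh]; omega)

lemma ball_finite (hc : G.Connected) (g : V) (r : ℕ) : {h | G.dist g h ≤ r}.Finite := by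
  have : {h | G.dist g h ≤ r} = ⋃ i ∈ Finset.range (r + 1), {h | G.dist g h = i} := by
    ext h; simp [Nat.lt_succ_iff]
  rw [this]
  exact Set.Finite.biUnion (Finset.finite_toSet _) fun i _ => sphere_finite G hc g i

lemma exists_geod (hc : G.Connected) {g h : V} (j : ℕ) (hj : j ≤ G.dist g h) :
    ∃ w, G.dist g w = G.dist g h - j ∧ G.dist w h = j := by
  induction j with
  | zero => exact ⟨h, by simp, by simp⟩
  | succ j ih =>
    obtain ⟨w, h1, h2⟩ := ih (by omega)
    obtain ⟨w', h3, h4⟩ := exists_pred G hc (g := g) (h := w) (m := G.dist g h - (j + 1)) (by omega)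
    refine ⟨w', h4, ?_⟩
    have h5 := hc.dist_triangle (u := g) (v := w') (w := h)
    have h6 := hc.dist_triangle (u := w') (v := w) (w := h)
    have h7 : G.dist w' w = 1 := SimpleGraph.dist_eq_one_iff_adj.mpr h3.symm
    omega

lemma dist_map (hc : G.Connected) (φ : G ≃g G) (x y : V) : G.dist (φ x) (φ y) = G.dist x y := by
  have key : ∀ (ψ : G ≃g G) (x y : V), G.dist (ψ x) (ψ y) ≤ G.dist x y := by
    intro ψ x y
    obtain ⟨p, hp⟩ := hc.exists_walk_length_eq_dist x y
    rw [← hp, ← SimpleGraph.Walk.length_map ψ.toHom p]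
    exact SimpleGraph.dist_le _
  apply le_antisymm (key φ x y)
  have := key φ.symm (φ x) (φ y)
  simpa using this

lemma exists_line [Infinite V] (hc : G.Connected) (ht : ∀ x y : V, ∃ φ : G ≃g G, φ x = y)
    (g : V) (r : ℕ) : ∃ p q, G.dist g p = r ∧ G.dist g q = r ∧ G.dist p q = 2 * r := by
  obtain ⟨y, hy⟩ : ∃ y, 2 * r < G.dist g y := by
    by_contra hcon
    push Not at hcon
    exact (Set.infinite_univ (α := V)) (Set.Finite.subset (ball_finite G hc g (2 * r)) (fun y _ => hcon y))
  obtain ⟨y', hy1, _⟩ := exists_geod G hc (g := g) (h := y) (G.dist g y - 2 * r) (by omega)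
  have hy2 : G.dist g y' = 2 * r := by omega
  obtain ⟨z, hz1, hz2⟩ := exists_geod G hc (g := g) (h := y') r (by omega)
  obtain ⟨φ, hφ⟩ := ht z g
  refine ⟨φ g, φ y', ?_, ?_, ?_⟩
  · have := dist_map G hc φ z g
    rw [hφ] at this
    rw [this, SimpleGraph.dist_comm, hz1, hy2]; omega
  · have := dist_map G hc φ z y'
    rw [hφ] at this
    rw [this, hz2]
  · rw [dist_map G hc, hy2]

/-- combination of positivity and geodesics -/
lemma key_ne [Infinite V] (hc : G.Connected) (hd : ∀ v, G.degree v = d)
    (ht : ∀ x y : V, ∃ φ : G ≃g G, φ x = y)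
    {α β : ℤ} {g g' : V} (hne : α ≠ β) (hle : β.natAbs ≤ α.natAbs) (S : Set V)
    (hS : ∀ x, x ∉ S → k G d α g x = k G d β g' x) :
    g ∈ S ∧ ∃ x ∈ S, G.dist g x + 1 = α.natAbs := by
  have hα : α ≠ 0 := by
    rintro rfl
    simp only [Int.natAbs_zero, Nat.le_zero_eq, Int.natAbs_eq_zero] at hle
    exact hne hle.symm
  have hα' : 0 < α.natAbs := Int.natAbs_pos.mpr hα
  constructor
  · by_contra hg
    exact pos_key G hd ht (Or.inl hne) hle hα (hS g hg)
  · by_contra hcon
    push Not at hcon
    obtain ⟨p, q, hp, hq, hpq⟩ := exists_line G hc ht g (α.natAbs - 1)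
    have hp' : p ∉ S := fun h => hcon p h (by omega)
    have hq' : q ∉ S := fun h => hcon q h (by omega)
    have main : ∀ p, G.dist g p = α.natAbs - 1 → p ∉ S → G.dist g' p + 1 < α.natAbs := by
      intro p hp hpS
      by_contra hlt
      push Not at hlt
      have h1 := hS p hpS
      have h2 := k_sign G (d := d) hc α (g := g) (h := p) (by omega)
      rcases (show β.natAbs ≤ G.dist g' p ∨ G.dist g' p + 1 = β.natAbs by omega) with h3 | h3
      · rw [k_eq_zero G hc β h3] at h1
        rw [h1, mul_zero] at h2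
        exact lt_irrefl _ h2
      · have h4 := k_sign G (d := d) hc β (g := g') (h := p) h3
        have h5 : α.natAbs = β.natAbs := by omega
        have h6 : β = -α := by
          rcases Int.natAbs_eq_natAbs_iff.mp h5 with h | h
          · exact absurd h hne
          · rw [h]; simp
        have h7 : G.dist g' p = G.dist g p := by omega
        rw [h7, h6, Int.sign_neg, ← h6, ← h1] at h4
        linarith
    have h1 := main p hp hp'
    have h2 := main q hq hq'
    have h3 := hc.dist_triangle (u := p) (v := g') (w := q)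
    rw [SimpleGraph.dist_comm (u := p) (v := g')] at h3
    omega

end Pool.Agent.R692.HL
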