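import Mathlib

/-! # Exponential sums and lacunary zero sets -/

namespace Pool.Agent.R692.HL

open Finset Filter Topology Matrix

def ExpSum (c : ℕ → ℝ) : Prop :=
  ∃ (S : Finset ℝ) (a : ℝ → ℝ), (∀ r ∈ S, 0 < r) ∧ ∀ n, c n = ∑ r ∈ S, a r * r ^ n

lemma ExpSum.zero : ExpSum (fun _ => 0) := ⟨∅, 0, by simp, by simp⟩

lemma ExpSum.geom {r : ℝ} (hr : 0 < r) (a : ℝ) : ExpSum (fun n => a * r ^ n) :=
  ⟨{r}, fun _ => a, by simpa using hr, by simp⟩

lemma ExpSum.add {c e : ℕ → ℝ} (hc : ExpSum c) (he : ExpSum e) : ExpSum (fun n => c n + e n) := by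
  classical
  obtain ⟨S, a, hS, hc⟩ := hc
  obtain ⟨S', a', hS', he⟩ := he
  refine ⟨S ∪ S', fun r => (if r ∈ S then a r else 0) + (if r ∈ S' then a' r else 0), ?_, ?_⟩
  · intro r hr
    rcases Finset.mem_union.mp hr with h | h
    · exact hS r h
    · exact hS' r h
  · intro n
    simp only [add_mul, Finset.sum_add_distrib, ite_mul, zero_mul]
    rw [Finset.sum_ite_mem, Finset.sum_ite_mem, Finset.union_inter_cancel_left,
      Finset.union_inter_cancel_right, hc, he]

lemma ExpSum.smul {c : ℕ → ℝ} (hc : ExpSum c) (t : ℝ) : ExpSum (fun n => t * c n) := by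
  obtain ⟨S, a, hS, hc⟩ := hc
  refine ⟨S, fun r => t * a r, hS, fun n => ?_⟩
  show t * c n = _
  rw [hc, Finset.mul_sum]
  exact Finset.sum_congr rfl fun r _ => by ring

lemma ExpSum.sum {ι : Type*} (s : Finset ι) {c : ι → ℕ → ℝ} (hc : ∀ i ∈ s, ExpSum (c i)) :
    ExpSum (fun n => ∑ i ∈ s, c i n) := by
  classical
  induction s using Finset.induction_on with
  | empty => simpa using ExpSum.zero
  | insert i s hi ih =>
    simp only [Finset.sum_insert hi]
    exact (hc i (Finset.mem_insert_self _ _)).add (ih fun j hj => hc j (Finset.mem_insert_of_mem hj))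

lemma ExpSum.asymp {c : ℕ → ℝ} (hc : ExpSum c) :
    (∀ n, c n = 0) ∨ ∃ r a : ℝ, 0 < r ∧ a ≠ 0 ∧ Tendsto (fun n => c n / r ^ n) atTop (𝓝 a) := by
  classical
  obtain ⟨S, a, hS, hc⟩ := hc
  set S' := S.filter (fun r => a r ≠ 0) with hS'
  have hc' : ∀ n, c n = ∑ r ∈ S', a r * r ^ n := by
    intro n
    rw [hc, hS', Finset.sum_filter_of_ne]
    intro r _ h h0
    apply h; rw [h0]; simp
  rcases S'.eq_empty_or_nonempty with he | hne
  · left; intro n; rw [hc', he]; simp
  · right
    have hmax := S'.max'_mem hne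
    set r := S'.max' hne with hr
    have hmem := Finset.mem_filter.mp hmax
    have hrpos : 0 < r := hS r hmem.1
    refine ⟨r, a r, hrpos, hmem.2, ?_⟩
    have h1 : (fun n => c n / r ^ n) = fun n => ∑ q ∈ S', a q * (q / r) ^ n := by
      funext n
      rw [hc', Finset.sum_div]
      exact Finset.sum_congr rfl fun q _ => by rw [div_pow]; ring
    rw [h1]
    have h2 : a r = ∑ q ∈ S', (if q = r then a q else 0) := by
      rw [Finset.sum_ite_eq' S' r a, if_pos hmax]
    rw [h2]
    apply tendsto_finsetSum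
    intro q hq
    split_ifs with h
    · rw [h, div_self hrpos.ne']; simp
    · have hlt : q < r := lt_of_le_of_ne (S'.le_max' q hq) h
      have hq0 : 0 < q := hS q (Finset.mem_filter.mp hq).1
      have := tendsto_pow_atTop_nhds_zero_of_lt_one (div_nonneg hq0.le hrpos.le)
        ((div_lt_one hrpos).mpr hlt)
      simpa using this.const_mul (a q)

/-- small sets of naturals -/
def Small (X : Set ℕ) : Prop := Summable (X.indicator (fun m : ℕ => (1 : ℝ) / m))

lemma Small.mono {X Y : Set ℕ} (hY : Small Y) (h : X ⊆ Y) : Small X := by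
  refine Summable.of_nonneg_of_le ?_ ?_ hY
  · intro m; exact Set.indicator_nonneg (fun _ _ => by positivity) _
  · intro m; exact Set.indicator_le_indicator_of_subset h (fun _ => by positivity) _

lemma Small.union {X Y : Set ℕ} (hX : Small X) (hY : Small Y) : Small (X ∪ Y) := by
  refine Summable.of_nonneg_of_le ?_ ?_ (hX.add hY)
  · intro m; exact Set.indicator_nonneg (fun _ _ => by positivity) _
  · intro m
    have h0 : (0 : ℝ) ≤ 1 / (m : ℝ) := by positivity
    by_cases h1 : m ∈ X <;> by_cases h2 : m ∈ Y <;> simp [h1, h2]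

lemma Small.of_finite {X : Set ℕ} (hX : X.Finite) : Small X := by
  unfold Small
  apply summable_of_ne_finset_zero (s := hX.toFinset)
  intro m hm
  exact Set.indicator_of_notMem (by simpa using hm) _

lemma Small.biUnion {ι : Type*} {s : Set ι} (hs : s.Finite) {X : ι → Set ℕ}
    (hX : ∀ i ∈ s, Small (X i)) : Small (⋃ i ∈ s, X i) := by
  classical
  induction s, hs using Set.Finite.induction_on with
  | empty => simpa using Small.of_finite Set.finite_empty
  | insert hi _ ih =>
    rw [Set.biUnion_insert]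
    exact (hX _ (Set.mem_insert _ _)).union (ih fun j hj => hX j (Set.mem_insert_of_mem _ hj))

lemma Small.exists_notMem {X : Set ℕ} (hX : Small X) : ∃ m, m ∉ X := by
  by_contra hcon
  push Not at hcon
  have : X = Set.univ := Set.eq_univ_of_forall hcon
  unfold Small at hX
  rw [this, Set.indicator_univ] at hX
  exact Real.not_summable_one_div_natCast hX

/-- the set of naturals `m` with `c n * m + e n = 0`, `c n ≠ 0` for some `n` is small -/
lemma small_zeros {c e : ℕ → ℝ} (hc : ExpSum c) (he : ExpSum e) :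
    Small {m : ℕ | ∃ n : ℕ, c n ≠ 0 ∧ c n * m + e n = 0} := by
  classical
  rcases hc.asymp with hc0 | ⟨r, a, hr, ha, hca⟩
  · apply (Small.of_finite Set.finite_empty).mono
    rintro m ⟨n, hn, _⟩
    exact absurd (hc0 n) hn
  rcases he.asymp with he0 | ⟨q, b, hq, hb, heb⟩
  · apply (Small.of_finite (Set.finite_singleton 0)).mono
    rintro m ⟨n, hn, h⟩
    rw [he0 n, add_zero] at h
    have := (mul_eq_zero.mp h).resolve_left hn
    simpa using this
  -- bounds
  have hca' : Tendsto (fun n => |c n / r ^ n|) atTop (𝓝 |a|) := hca.abs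
  have heb' : Tendsto (fun n => |e n / q ^ n|) atTop (𝓝 |b|) := heb.abs
  have ha' : 0 < |a| := abs_pos.mpr ha
  have hb' : 0 < |b| := abs_pos.mpr hb
  have e1 := hca'.eventually (lt_mem_nhds (show |a| / 2 < |a| by linarith))
  have e2 := hca'.eventually (gt_mem_nhds (show |a| < 2 * |a| by linarith))
  have e3 := heb'.eventually (lt_mem_nhds (show |b| / 2 < |b| by linarith))
  have e4 := heb'.eventually (gt_mem_nhds (show |b| < 2 * |b| by linarith))
  obtain ⟨N, hN⟩ := Filter.eventually_atTop.mp (((e1.and e2).and e3).and e4)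
  have hsplit : {m : ℕ | ∃ n : ℕ, c n ≠ 0 ∧ c n * m + e n = 0} ⊆
      (⋃ n ∈ Finset.range N, {m : ℕ | c n ≠ 0 ∧ c n * m + e n = 0}) ∪
      {m : ℕ | ∃ n : ℕ, N ≤ n ∧ c n ≠ 0 ∧ c n * m + e n = 0} := by
    rintro m ⟨n, h1, h2⟩
    rcases lt_or_ge n N with h | h
    · left
      simp only [Set.mem_iUnion]
      exact ⟨n, Finset.mem_range.mpr h, h1, h2⟩
    · right; exact ⟨n, h, h1, h2⟩
  refine (Small.union ?_ ?_).mono hsplit
  · apply Small.of_finite
    apply Set.Finite.biUnion (Finset.finite_toSet _)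
    intro n _
    apply Set.Subsingleton.finite
    rintro m ⟨h1, h2⟩ m' ⟨_, h4⟩
    have : c n * ((m : ℝ) - m') = 0 := by linarith
    have := (mul_eq_zero.mp this).resolve_left h1
    have : (m : ℝ) = m' := by linarith
    exact_mod_cast this
  -- absolute values
  have habs : ∀ m n : ℕ, c n * m + e n = 0 → |c n| * m = |e n| := by
    intro m n h
    have : e n = - (c n * m) := by linarith
    rw [this, abs_neg, abs_mul, Nat.abs_cast]
  have hcn : ∀ n, |c n / r ^ n| = |c n| / r ^ n := by
    intro n; rw [abs_div, abs_of_pos (pow_pos hr n)]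
  have hen : ∀ n, |e n / q ^ n| = |e n| / q ^ n := by
    intro n; rw [abs_div, abs_of_pos (pow_pos hq n)]
  rcases le_or_gt q r with hqr | hqr
  · -- bounded
    apply Small.of_finite
    apply (Set.finite_le_nat (⌈4 * |b| / |a|⌉₊)).subset
    rintro m ⟨n, hn, h1, h2⟩
    obtain ⟨⟨⟨h3, _⟩, _⟩, h6⟩ := hN n hn
    have hrn := pow_pos hr n
    have hqn := pow_pos hq n
    rw [hcn, lt_div_iff₀ hrn] at h3
    rw [hen, div_lt_iff₀ hqn] at h6
    have h7 := habs m n h2
    have h8 : q ^ n ≤ r ^ n := pow_le_pow_left₀ hq.le hqr n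
    have h9 : (|a| / 2 * r ^ n) * m ≤ 2 * |b| * r ^ n := by
      calc (|a| / 2 * r ^ n) * m ≤ |c n| * m := by gcongr
        _ = |e n| := h7
        _ ≤ 2 * |b| * q ^ n := h6.le
        _ ≤ 2 * |b| * r ^ n := by gcongr
    have h10 : (m : ℝ) ≤ 4 * |b| / |a| := by
      rw [le_div_iff₀ ha']
      have : r ^ n * (m * |a|) ≤ r ^ n * (4 * |b|) := by linarith
      exact le_of_mul_le_mul_left this hrn
    exact Nat.cast_le.mp (h10.trans (Nat.le_ceil _))
  · -- exponential growth
    set lam := r / q with hlam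
    have hlam0 : 0 < lam := div_pos hr hq
    have hlam1 : lam < 1 := (div_lt_one hq).mpr hqr
    unfold Small
    rw [← summable_subtype_iff_indicator]
    set X := {m : ℕ | ∃ n : ℕ, N ≤ n ∧ c n ≠ 0 ∧ c n * m + e n = 0} with hX
    choose idx hidx using fun m : X => m.2
    have hinj : Function.Injective idx := by
      intro m m' h
      have h1 := hidx m
      have h2 := hidx m'
      rw [← h] at h2
      have : c (idx m) * (((m : ℕ) : ℝ) - (m' : ℕ)) = 0 := by linarith [h1.2.2, h2.2.2]
      have := (mul_eq_zero.mp this).resolve_left h1.2.1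
      have : ((m : ℕ) : ℝ) = (m' : ℕ) := by linarith
      exact Subtype.ext (by exact_mod_cast this)
    have hsum : Summable (fun m : X => (4 * |a| / |b|) * lam ^ (idx m)) :=
      ((summable_geometric_of_lt_one hlam0.le hlam1).mul_left _).comp_injective hinj
    refine Summable.of_nonneg_of_le (fun m => ?_) (fun m => ?_) hsum
    · simp only [Function.comp]; positivity
    · simp only [Function.comp]
      obtain ⟨hn, h1, h2⟩ := hidx m
      set n := idx m with hn'
      obtain ⟨⟨⟨_, h4⟩, h5⟩, _⟩ := hN n hn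
      have hrn := pow_pos hr n
      have hqn := pow_pos hq n
      rw [hcn, div_lt_iff₀ hrn] at h4
      rw [hen, lt_div_iff₀ hqn] at h5
      have h7 := habs m n h2
      have h8 : |b| / 2 * q ^ n ≤ 2 * |a| * r ^ n * (m : ℕ) := by
        calc |b| / 2 * q ^ n ≤ |e n| := h5.le
          _ = |c n| * (m : ℕ) := h7.symm
          _ ≤ 2 * |a| * r ^ n * (m : ℕ) := by gcongr
      have hmpos : (0 : ℝ) < (m : ℕ) := by
        rcases Nat.eq_zero_or_pos (m : ℕ) with h0 | h0
        · rw [h0, Nat.cast_zero, mul_zero] at h8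
          have : 0 < |b| / 2 * q ^ n := by positivity
          linarith
        · exact_mod_cast h0
      rw [div_le_iff₀ hmpos, hlam, div_pow]
      rw [show (4 * |a| / |b|) * (r ^ n / q ^ n) * ((m : ℕ) : ℝ)
        = (4 * |a| * r ^ n * (m : ℕ)) / (|b| * q ^ n) by field_simp]
      rw [le_div_iff₀ (by positivity)]
      linarith

/-- two-term recursion with hyperbolic trace -/
lemma ExpSum.rec {τ : ℝ} (hτ : 2 < τ) {b : ℕ → ℝ} (hb : ∀ n, b (n + 2) = τ * b (n + 1) - b n) :
    ExpSum b := by
  have hD : 0 < τ ^ 2 - 4 := by nlinarith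
  set D := Real.sqrt (τ ^ 2 - 4) with hDdef
  have hDsq : D ^ 2 = τ ^ 2 - 4 := Real.sq_sqrt hD.le
  have hDpos : 0 < D := Real.sqrt_pos.mpr hD
  have hDlt : D < τ := by nlinarith
  set r := (τ + D) / 2 with hr
  set s := (τ - D) / 2 with hs
  have hrpos : 0 < r := by rw [hr]; linarith
  have hspos : 0 < s := by rw [hs]; linarith
  have hr2 : r ^ 2 = τ * r - 1 := by rw [hr]; nlinarith
  have hs2 : s ^ 2 = τ * s - 1 := by rw [hs]; nlinarith
  have hrs : r - s = D := by rw [hr, hs]; ring
  set A := (b 1 - s * b 0) / D with hA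
  set B := (r * b 0 - b 1) / D with hB
  have key : ∀ n, b n = A * r ^ n + B * s ^ n ∧ b (n + 1) = A * r ^ (n + 1) + B * s ^ (n + 1) := by
    intro n
    induction n with
    | zero =>
      have hAD : A * D = b 1 - s * b 0 := by rw [hA]; field_simp
      have hBD : B * D = r * b 0 - b 1 := by rw [hB]; field_simp
      constructor
      · simp only [pow_zero, mul_one]
        apply mul_right_cancel₀ hDpos.ne'
        rw [add_mul, hAD, hBD, ← hrs]; ring
      · simp only [zero_add, pow_one]
        apply mul_right_cancel₀ hDpos.ne'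
        have : (A * r + B * s) * D = r * (A * D) + s * (B * D) := by ring
        rw [this, hAD, hBD, ← hrs]; ring
    | succ n ih =>
      refine ⟨ih.2, ?_⟩
      rw [show n + 1 + 1 = n + 2 by ring, hb, ih.1, ih.2]
      have e1 : r ^ (n + 2) = τ * r ^ (n + 1) - r ^ n := by
        rw [pow_add r n 2, hr2]; ring
      have e2 : s ^ (n + 2) = τ * s ^ (n + 1) - s ^ n := by
        rw [pow_add s n 2, hs2]; ring
      rw [e1, e2]; ring
  have : b = fun n => A * r ^ n + B * s ^ n := funext fun n => (key n).1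
  rw [this]
  exact (ExpSum.geom hrpos A).add (ExpSum.geom hspos B)

/-- vector recursion with a symmetric matrix all of whose eigenvalues exceed 2 -/
lemma ExpSum.vec {Z : Type*} [Fintype Z] [DecidableEq Z] (M : Matrix Z Z ℝ) (hM : M.IsHermitian)
    (hpos : ∀ v : Z → ℝ, v ≠ 0 → 2 * (v ⬝ᵥ v) < v ⬝ᵥ (M *ᵥ v))
    {w : ℕ → Z → ℝ} (hw : ∀ n, w (n + 2) = M *ᵥ (w (n + 1)) - w n) (u : Z → ℝ) :
    ExpSum (fun n => u ⬝ᵥ w n) := by
  have hsymm : Mᵀ = M := by
    have := hM.eq
    rwa [Matrix.conjTranspose_eq_transpose_of_trivial] at this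
  set E := hM.eigenvectorBasis with hE
  have h1 : ∀ n, u ⬝ᵥ w n = ∑ j, (u ⬝ᵥ (E j).ofLp) * ((E j).ofLp ⬝ᵥ w n) := by
    intro n
    have := E.sum_inner_mul_inner (WithLp.toLp 2 (w n)) (WithLp.toLp 2 u)
    simp only [EuclideanSpace.inner_eq_star_dotProduct, star_trivial] at this
    rw [← this]
    exact Finset.sum_congr rfl fun j _ => mul_comm _ _
  have h2 : (fun n => u ⬝ᵥ w n) = fun n => ∑ j, (u ⬝ᵥ (E j).ofLp) * ((E j).ofLp ⬝ᵥ w n) :=
    funext h1
  rw [h2]
  apply ExpSum.sum
  intro j _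
  apply ExpSum.smul
  have hne : (E j).ofLp ≠ 0 := by
    intro h0
    have := E.orthonormal.ne_zero j
    apply this
    ext i
    exact congrFun h0 i
  have heig : M *ᵥ (E j).ofLp = hM.eigenvalues j • (E j).ofLp := hM.mulVec_eigenvectorBasis j
  have hτ : 2 < hM.eigenvalues j := by
    have := hpos _ hne
    rw [heig, dotProduct_smul, smul_eq_mul] at this
    have hp : 0 < (E j).ofLp ⬝ᵥ (E j).ofLp := by
      rcases (show 0 ≤ (E j).ofLp ⬝ᵥ (E j).ofLp from
        Finset.sum_nonneg fun i _ => mul_self_nonneg _).lt_or_eq with h | h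
      · exact h
      · exact absurd (dotProduct_self_eq_zero.mp h.symm) hne
    nlinarith
  apply ExpSum.rec hτ
  intro n
  rw [hw, dotProduct_sub, dotProduct_mulVec, ← mulVec_transpose, hsymm, heig, smul_dotProduct,
    smul_eq_mul]

end Pool.Agent.R692.HL
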