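import Pool.Agent.R692.HL.Op

/-! # Greedy construction of an injective and surjective evaluation -/

namespace Pool.Agent.R692.HL

open Finset

lemma pair_congr {B : Type*} (φ : B →₀ ℤ) {s s' : B → ℤ} (h : ∀ b, φ b ≠ 0 → s b = s' b) :
    pair φ s = pair φ s' := by
  rw [pair_eq_sum, pair_eq_sum]
  exact Finset.sum_congr rfl fun b hb => by rw [h b (Finsupp.mem_support_iff.mp hb)]

variable {B P : Type*}

def SuppIn (ρ : P → B →₀ ℤ) (S : Finset B) (x y : P) : Prop := ∀ b, b ∉ S → ρ x b = ρ y b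

noncomputable def ev (ρ : P → B →₀ ℤ) (s : B → ℤ) (x : P) : ℤ := pair (ρ x) s

def GoodS (ρ : P → B →₀ ℤ) (S : Finset B) (s : B → ℤ) : Prop :=
  ∀ x y, x ≠ y → SuppIn ρ S x y → ev ρ s x ≠ ev ρ s y

lemma ev_sub_congr (ρ : P → B →₀ ℤ) {S : Finset B} {x y : P} (h : SuppIn ρ S x y)
    {s s' : B → ℤ} (hs : ∀ b ∈ S, s b = s' b) :
    ev ρ s x - ev ρ s y = ev ρ s' x - ev ρ s' y := by
  unfold ev
  rw [← pair_sub, ← pair_sub]
  apply pair_congr
  intro b hb
  by_cases hbS : b ∈ S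
  · exact hs b hbS
  · exact absurd (by simp [h b hbS]) hb

lemma ev_congr (ρ : P → B →₀ ℤ) {S : Finset B} {x : P} (h : ∀ b, b ∉ S → ρ x b = 0)
    {s s' : B → ℤ} (hs : ∀ b ∈ S, s b = s' b) : ev ρ s x = ev ρ s' x := by
  unfold ev
  apply pair_congr
  intro b hb
  by_cases hbS : b ∈ S
  · exact hs b hbS
  · exact absurd (h b hbS) hb

theorem greedy [Countable B] [Nonempty B] [DecidableEq B] (ρ : P → B →₀ ℤ) (β : B → P)
    (hβ : ∀ b, ρ (β b) = Finsupp.single b 1)
    (hinj : Function.Injective ρ)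
    (hE : ∀ (S : Finset B) (s : B → ℤ) (b : B), b ∉ S → GoodS ρ S s →
      ∃ v, GoodS ρ (insert b S) (Function.update s b v))
    (hI : ∀ S : Finset B, ∃ b, b ∉ S ∧ ∀ s, GoodS ρ S s → ∀ v,
      (∀ x, (∀ c, c ∉ S → ρ x c = 0) → ev ρ s x ≠ v) →
      GoodS ρ (insert b S) (Function.update s b v)) :
    ∃ s : B → ℤ, Function.Bijective (ev ρ s) := by
  classical
  let St := {p : Finset B × (B → ℤ) // GoodS ρ p.1 p.2}
  have step : ∀ (st : St) (b : B) (v : ℤ), ∃ st' : St, (st.1.1 ⊆ st'.1.1 ∧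
      (∀ c ∈ st.1.1, st'.1.2 c = st.1.2 c)) ∧ b ∈ st'.1.1 ∧
      ∃ x, (∀ c, c ∉ st'.1.1 → ρ x c = 0) ∧ ev ρ st'.1.2 x = v := by
    intro st b v
    -- first stage
    obtain ⟨st1, h1, h2, h3⟩ : ∃ st1 : St, st.1.1 ⊆ st1.1.1 ∧
        (∀ c ∈ st.1.1, st1.1.2 c = st.1.2 c) ∧ b ∈ st1.1.1 := by
      by_cases hb : b ∈ st.1.1
      · exact ⟨st, subset_rfl, fun _ _ => rfl, hb⟩
      · obtain ⟨w, hw⟩ := hE st.1.1 st.1.2 b hb st.2
        refine ⟨⟨(insert b st.1.1, Function.update st.1.2 b w), hw⟩, Finset.subset_insert _ _, ?_,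
          Finset.mem_insert_self _ _⟩
        intro c hc
        have : c ≠ b := by rintro rfl; exact hb hc
        simp [this]
    by_cases hx : ∃ x, (∀ c, c ∉ st1.1.1 → ρ x c = 0) ∧ ev ρ st1.1.2 x = v
    · exact ⟨st1, ⟨h1, h2⟩, h3, hx⟩
    · push Not at hx
      obtain ⟨b', hb', hb2⟩ := hI st1.1.1
      have hg := hb2 st1.1.2 st1.2 v hx
      refine ⟨⟨(insert b' st1.1.1, Function.update st1.1.2 b' v), hg⟩,
        ⟨h1.trans (Finset.subset_insert _ _), ?_⟩, Finset.mem_insert_of_mem h3, β b', ?_, ?_⟩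
      · intro c hc
        have : c ≠ b' := by rintro rfl; exact hb' (h1 hc)
        simp [this, h2 c hc]
      · intro c hc
        have : c ≠ b' := by rintro rfl; exact hc (Finset.mem_insert_self _ _)
        rw [hβ]; simp [this]
      · simp [ev, hβ]
  choose nxt hnxt using step
  obtain ⟨e, he⟩ := exists_surjective_nat B
  obtain ⟨e', he'⟩ := exists_surjective_nat ℤ
  have h0 : GoodS ρ ∅ (fun _ => 0) := by
    intro x y hxy hs
    exfalso
    apply hxy
    apply hinj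
    ext b
    exact hs b (Finset.notMem_empty b)
  let seq : ℕ → St := fun n => Nat.rec (motive := fun _ => St) ⟨(∅, fun _ => 0), h0⟩
    (fun n st => nxt st (e n) (e' n)) n
  have hseq : ∀ n, seq (n + 1) = nxt (seq n) (e n) (e' n) := fun n => rfl
  have hmono : ∀ m n, m ≤ n → (seq m).1.1 ⊆ (seq n).1.1 ∧
      ∀ c ∈ (seq m).1.1, (seq n).1.2 c = (seq m).1.2 c := by
    intro m n hmn
    induction n, hmn using Nat.le_induction with
    | base => exact ⟨subset_rfl, fun _ _ => rfl⟩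
    | succ n _ ih =>
      have := (hnxt (seq n) (e n) (e' n)).1
      rw [← hseq] at this
      refine ⟨ih.1.trans this.1, fun c hc => ?_⟩
      rw [this.2 c (ih.1 hc), ih.2 c hc]
  choose idx hidx using he
  let s : B → ℤ := fun b => (seq (idx b + 1)).1.2 b
  have hmem : ∀ b, b ∈ (seq (idx b + 1)).1.1 := by
    intro b
    have := (hnxt (seq (idx b)) (e (idx b)) (e' (idx b))).2.1
    rw [← hseq, hidx b] at this
    exact this
  have hs : ∀ n, ∀ b ∈ (seq n).1.1, s b = (seq n).1.2 b := by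
    intro n b hb
    rcases le_total n (idx b + 1) with h | h
    · exact (hmono n _ h).2 b hb
    · exact ((hmono _ n h).2 b (hmem b)).symm
  refine ⟨s, ?_, ?_⟩
  · intro x y hxy
    by_contra hne
    obtain ⟨N, hN⟩ : ∃ N, ∀ b, ρ x b ≠ ρ y b → b ∈ (seq N).1.1 := by
      refine ⟨((ρ x).support ∪ (ρ y).support).sup (fun b => idx b + 1), ?_⟩
      intro b hb
      have hb' : b ∈ (ρ x).support ∪ (ρ y).support := by
        by_contra hcon
        rw [Finset.mem_union, not_or, Finsupp.notMem_support_iff, Finsupp.notMem_support_iff] at hcon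
        exact hb (hcon.1.trans hcon.2.symm)
      exact (hmono _ _ (Finset.le_sup (f := fun b => idx b + 1) hb')).1 (hmem b)
    have hsup : SuppIn ρ (seq N).1.1 x y := by
      intro b hb
      by_contra hcon
      exact hb (hN b hcon)
    have h1 := (seq N).2 x y hne hsup
    have h2 := ev_sub_congr ρ hsup (hs N)
    rw [hxy, sub_self] at h2
    exact h1 (sub_eq_zero.mp h2.symm)
  · intro v
    obtain ⟨n, rfl⟩ := he' v
    obtain ⟨x, hx1, hx2⟩ := (hnxt (seq n) (e n) (e' n)).2.2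
    rw [← hseq] at hx1 hx2
    exact ⟨x, by rw [ev_congr ρ hx1 (hs (n + 1)), hx2]⟩

end Pool.Agent.R692.HL
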