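import Pool.Agent.R692.HL.Pos

/-! # The integer kernel of the Chebyshev operators -/

namespace Pool.Agent.R692.HL

open Finset Polynomial

variable {V : Type*} (G : SimpleGraph V) [G.LocallyFinite] (d : ℕ)

/-- row of the kernel -/
noncomputable def row (n : ℤ) (g : V) : V →₀ ℤ := J G ℤ d n (Finsupp.single g 1)

/-- the kernel -/
noncomputable def k (n : ℤ) (g h : V) : ℤ := row G d n g h

lemma k_zero (g h : V) : k G d 0 g h = 0 := by simp [k, row, J_zero]

lemma k_one (g h : V) [Decidable (g = h)] : k G d 1 g h = if g = h then 1 else 0 := by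
  classical
  simp [k, row, J_one, Finsupp.single_apply]

lemma k_neg (n : ℤ) (g h : V) : k G d (-n) g h = - k G d n g h := by
  simp [k, row, J_neg]

lemma k_add_one (n : ℤ) (g h : V) :
    k G d (n + 1) g h = ((d : ℤ) + 2) * k G d n g h
      - ∑ w ∈ G.neighborFinset h, k G d n g w - k G d (n - 1) g h := by
  unfold k row
  rw [J_add_one, LinearMap.sub_apply, Finsupp.sub_apply, Module.End.mul_apply, Top_apply]

lemma k_symm (n : ℤ) (g h : V) : k G d n g h = k G d n h g := by
  have := pair_J G d n (Finsupp.single g (1 : ℤ)) (Finsupp.single h 1)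
  rw [pair_comm, pair_single, pair_single, one_mul, one_mul] at this
  exact this

lemma row_add_one (n : ℤ) (g : V) :
    row G d (n + 1) g = ((d : ℤ) + 2) • row G d n g
      - ∑ w ∈ G.neighborFinset g, row G d n w - row G d (n - 1) g := by
  unfold row
  rw [J_add_one', LinearMap.sub_apply, Module.End.mul_apply]
  congr 1
  rw [← map_sum, ← map_smul, ← map_sub]
  congr 1
  simp [Top, Aop_single]

lemma J_cast (n : ℤ) (φ : V →₀ ℤ) (x : V) :
    ((J G ℤ d n φ x : ℤ) : ℝ)
      = J G ℝ d n (φ.mapRange (Int.castRingHom ℝ) (map_zero _)) x := by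
  have key : ∀ m : ℕ, (∀ x, ((J G ℤ d m φ x : ℤ) : ℝ)
      = J G ℝ d m (φ.mapRange (Int.castRingHom ℝ) (map_zero _)) x) ∧
      (∀ x, ((J G ℤ d (m + 1) φ x : ℤ) : ℝ)
      = J G ℝ d (m + 1) (φ.mapRange (Int.castRingHom ℝ) (map_zero _)) x) := by
    intro m
    induction m with
    | zero =>
      simp only [Nat.cast_zero, J_zero, zero_add, J_one]
      constructor <;> intro x <;> simp
    | succ m ih =>
      obtain ⟨h1, h2⟩ := ih
      refine ⟨fun x => by simpa using h2 x, fun x => ?_⟩
      rw [J_add_one G ℤ d, J_add_one G ℝ d, LinearMap.sub_apply, LinearMap.sub_apply,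
        Finsupp.sub_apply, Finsupp.sub_apply, Module.End.mul_apply, Module.End.mul_apply,
        Top_apply, Top_apply]
      push_cast
      rw [add_sub_cancel_right, h2 x, h1 x, Finset.sum_congr rfl fun w _ => h2 w]
  rcases Int.eq_nat_or_neg n with ⟨m, rfl | rfl⟩
  · exact (key m).1 x
  · rw [J_neg, J_neg, LinearMap.neg_apply, LinearMap.neg_apply, Finsupp.neg_apply,
      Finsupp.neg_apply, Int.cast_neg, (key m).1 x]

lemma k_cast (n : ℤ) (g h : V) :
    ((k G d n g h : ℤ) : ℝ) = J G ℝ d n (Finsupp.single g 1) h := by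
  unfold k row
  rw [J_cast]
  simp

variable {d}

section transitive

lemma k_aut (n : ℤ) (φ : G ≃g G) (g h : V) : k G d n (φ g) (φ h) = k G d n g h := by
  classical
  have hsum : ∀ (F : V → ℤ) (h : V), ∑ w ∈ G.neighborFinset (φ h), F w
      = ∑ w ∈ G.neighborFinset h, F (φ w) := by
    intro F h
    refine (Finset.sum_bij' (fun w _ => φ w) (fun w _ => φ.symm w) ?_ ?_ ?_ ?_ ?_).symm
    · intro w hw
      simp only [SimpleGraph.mem_neighborFinset] at hw ⊢
      exact φ.map_adj_iff.mpr hw
    · intro w hw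
      simp only [SimpleGraph.mem_neighborFinset] at hw ⊢
      rw [← φ.map_adj_iff]; simpa using hw
    · intro w _; simp
    · intro w _; simp
    · intro w _; rfl
  have key : ∀ m : ℕ, (∀ h, k G d m (φ g) (φ h) = k G d m g h) ∧
      (∀ h, k G d (m + 1) (φ g) (φ h) = k G d (m + 1) g h) := by
    intro m
    induction m with
    | zero =>
      constructor
      · intro h; simp [k_zero]
      · intro h; simp [k_one]
    | succ m ih =>
      obtain ⟨h1, h2⟩ := ih
      refine ⟨fun h => by simpa using h2 h, fun h => ?_⟩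
      rw [k_add_one, k_add_one, hsum]
      push_cast
      rw [add_sub_cancel_right, h2 h, h1 h, Finset.sum_congr rfl fun w _ => h2 w]
  rcases Int.eq_nat_or_neg n with ⟨m, rfl | rfl⟩
  · exact (key m).1 h
  · rw [k_neg, k_neg, (key m).1 h]

lemma k_diag (ht : ∀ x y : V, ∃ φ : G ≃g G, φ x = y) (n : ℤ) (g h : V) :
    k G d n g g = k G d n h h := by
  obtain ⟨φ, rfl⟩ := ht g h
  exact (k_aut G n φ g g).symm

lemma pair_single_J (m : ℤ) (g h : V) :
    pair (Finsupp.single h (1 : ℝ)) (J G ℝ d m (Finsupp.single g 1)) = (k G d m g h : ℝ) := by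
  rw [pair_single, one_mul, k_cast]

lemma k_self_pos (hd : ∀ v, G.degree v = d) {m : ℕ} (hm : 0 < m) (g : V) :
    0 < k G d m g g := by
  have := Q_pos G hd hm (Finsupp.single g 1) (by simp)
  rw [pair_single_J] at this
  exact_mod_cast this

lemma k_self_lt_succ (hd : ∀ v, G.degree v = d) (m : ℕ) (g : V) :
    k G d m g g < k G d (m + 1) g g := by
  have := Q_step G hd m (Finsupp.single g 1)
  rw [pair_single_J, pair_single_J, pair_single] at this
  simp only [Finsupp.single_eq_same, mul_one] at this
  have h2 : k G d m g g + 1 ≤ k G d (m + 1) g g := by exact_mod_cast this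
  linarith

lemma k_self_lt (hd : ∀ v, G.degree v = d) {m n : ℕ} (hmn : m < n) (g : V) :
    k G d m g g < k G d n g g := by
  induction n, hmn using Nat.le_induction with
  | base => exact_mod_cast k_self_lt_succ G hd m g
  | succ n _ ih => exact ih.trans (by exact_mod_cast k_self_lt_succ G hd n g)

lemma k_abs_lt (hd : ∀ v, G.degree v = d) (ht : ∀ x y : V, ∃ φ : G ≃g G, φ x = y)
    {m : ℕ} (hm : 0 < m) {g h : V} (hgh : g ≠ h) : |k G d m g h| < k G d m g g := by
  have e1 : ∀ ε : ℝ, ε = 1 ∨ ε = -1 →
      0 < (k G d m g g : ℝ) + (k G d m h h : ℝ) + 2 * ε * (k G d m g h : ℝ) := by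
    intro ε hε
    have hne : Finsupp.single g (1 : ℝ) + ε • Finsupp.single h 1 ≠ 0 := by
      intro h0
      have := DFunLike.congr_fun h0 g
      simp [hgh.symm] at this
    have := Q_pos G hd hm _ hne
    rw [map_add, map_smul, pair_add, pair_smul] at this
    have a1 : pair (Finsupp.single g (1 : ℝ))
        (J G ℝ d m (Finsupp.single g 1) + ε • J G ℝ d m (Finsupp.single h 1) : V →₀ ℝ)
        = (k G d m g g : ℝ) + ε * k G d m h g := by
      rw [pair_single, Finsupp.add_apply, Finsupp.smul_apply, k_cast, k_cast]; simp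
    have a2 : pair (Finsupp.single h (1 : ℝ))
        (J G ℝ d m (Finsupp.single g 1) + ε • J G ℝ d m (Finsupp.single h 1) : V →₀ ℝ)
        = (k G d m g h : ℝ) + ε * k G d m h h := by
      rw [pair_single, Finsupp.add_apply, Finsupp.smul_apply, k_cast, k_cast]; simp
    rw [a1, a2, k_symm G d m h g] at this
    have hε2 : ε * ε = 1 := by rcases hε with rfl | rfl <;> norm_num
    calc (0:ℝ) < _ := this
      _ = (k G d m g g : ℝ) + (ε * ε) * (k G d m h h : ℝ) + 2 * ε * (k G d m g h : ℝ) := by ring
      _ = _ := by rw [hε2]; ring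
  have h1 := e1 1 (Or.inl rfl)
  have h2 := e1 (-1) (Or.inr rfl)
  rw [← k_diag G ht m g h] at h1 h2
  rw [abs_lt]
  constructor
  · have : (-(k G d m g g : ℝ)) < k G d m g h := by linarith
    exact_mod_cast this
  · have : (k G d m g h : ℝ) < k G d m g g := by linarith
    exact_mod_cast this

lemma k_natAbs (n : ℤ) (g h : V) : |k G d n g h| = |k G d n.natAbs g h| := by
  rcases Int.eq_nat_or_neg n with ⟨m, rfl | rfl⟩
  · simp
  · rw [k_neg, abs_neg]; simp

/-- positivity: the value at the centre of the larger kernel is never cancelled -/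
lemma pos_key (hd : ∀ v, G.degree v = d) (ht : ∀ x y : V, ∃ φ : G ≃g G, φ x = y)
    {α β : ℤ} {g g' : V} (hne : α ≠ β ∨ g ≠ g') (hle : β.natAbs ≤ α.natAbs) (hα : α ≠ 0) :
    k G d α g g ≠ k G d β g' g := by
  intro heq
  have hα' : 0 < α.natAbs := Int.natAbs_pos.mpr hα
  have habs : |k G d β g' g| = k G d α.natAbs g g := by
    rw [← heq, k_natAbs, abs_of_pos (k_self_pos G hd hα' g)]
  rcases eq_or_ne g' g with rfl | hgg
  · -- same centre
    rcases hle.lt_or_eq with hlt | heq2
    · rw [k_natAbs] at habs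
      rcases Nat.eq_zero_or_pos β.natAbs with h0 | h0
      · rw [h0] at habs
        simp only [Nat.cast_zero, k_zero, abs_zero] at habs
        exact absurd habs (k_self_pos G hd hα' g').ne
      · rw [abs_of_pos (k_self_pos G hd h0 g')] at habs
        exact absurd habs (k_self_lt G hd hlt g').ne
    · have : α ≠ β := by
        rcases hne with h | h
        · exact h
        · exact absurd rfl h
      have hβ : β = -α := by
        rcases Int.natAbs_eq_natAbs_iff.mp heq2 with h | h
        · exact absurd h.symm this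
        · exact h
      rw [hβ, k_neg] at heq
      have h0 : k G d α g' g' = 0 := by linarith
      have h1 : |k G d α g' g'| = 0 := by rw [h0]; simp
      rw [k_natAbs, abs_of_pos (k_self_pos G hd hα' g')] at h1
      exact absurd h1 (k_self_pos G hd hα' g').ne'
  · rw [k_natAbs] at habs
    rcases Nat.eq_zero_or_pos β.natAbs with h0 | h0
    · rw [h0] at habs
      simp only [Nat.cast_zero, k_zero, abs_zero] at habs
      exact absurd habs (k_self_pos G hd hα' g).ne
    · have h1 := k_abs_lt G hd ht h0 hgg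
      rw [habs, k_diag G ht _ g' g] at h1
      rcases hle.lt_or_eq with hlt | heq2
      · exact absurd (h1.trans (k_self_lt G hd hlt g)) (lt_irrefl _)
      · rw [heq2] at h1; exact lt_irrefl _ h1

end transitive

end Pool.Agent.R692.HL
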