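import Pool.Agent.R692.HL.Kernel
import Pool.Agent.R692.HL.Exp

/-! # Pairs of vertices with a finite orbit -/

namespace Pool.Agent.R692.HL

open Finset Polynomial

lemma degree_S_nat (m : ℕ) : (Chebyshev.S ℝ m).degree = m ∧
    (Chebyshev.S ℝ ((m : ℤ) + 1)).degree = ((m + 1 : ℕ) : WithBot ℕ) := by
  induction m with
  | zero => simp
  | succ m ih =>
    refine ⟨by simpa using ih.2, ?_⟩
    have e : Chebyshev.S ℝ (((m + 1 : ℕ) : ℤ) + 1) = X * Chebyshev.S ℝ ((m : ℤ) + 1)
        - Chebyshev.S ℝ m := by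
      rw [Chebyshev.S_add_one]; push_cast; rw [add_sub_cancel_right]
    have h1 : (X * Chebyshev.S ℝ ((m : ℤ) + 1)).degree = ((m + 1 + 1 : ℕ) : WithBot ℕ) := by
      rw [degree_mul, degree_X, ih.2]
      push_cast; ring
    rw [e, degree_sub_eq_left_of_degree_lt, h1]
    rw [h1, ih.1]
    exact_mod_cast (by omega : m < m + 1 + 1)

noncomputable def chebSeq : Polynomial.Sequence ℝ where
  elems' := fun m => Chebyshev.S ℝ m
  degree_eq' := fun m => (degree_S_nat m).1

variable {V : Type*} (G : SimpleGraph V) [G.LocallyFinite] {d : ℕ}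

/-- difference of two delta functions -/
noncomputable def dl (g g' : V) : V →₀ ℝ := Finsupp.single g 1 - Finsupp.single g' 1

lemma J_dl (n : ℤ) (g g' x : V) :
    J G ℝ d n (dl g g') x = (k G d n g x : ℝ) - (k G d n g' x : ℝ) := by
  unfold dl
  rw [map_sub, Finsupp.sub_apply, k_cast, k_cast]

/-- dichotomy for same-row pairs -/
lemma orbit (g g' : V) (S : Set V) (hS : S.Finite)
    (hinf : {n : ℤ | ∀ x, x ∉ S → k G d n g x = k G d n g' x}.Infinite) :
    ∃ Z : Finset V, ∀ n x, x ∉ Z → k G d n g x = k G d n g' x := by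
  classical
  set N := {n : ℤ | ∀ x, x ∉ S → k G d n g x = k G d n g' x} with hN
  -- the set of naturals
  set N' := {m : ℕ | ((m : ℤ) + 1) ∈ N} with hN'
  have hinf' : N'.Infinite := by
    intro hfin
    apply hinf
    have : N ⊆ (fun m : ℕ => (m : ℤ) + 1) '' N' ∪ (fun m : ℕ => -((m : ℤ) + 1)) '' N' ∪ {0} := by
      intro n hn
      rcases lt_trichotomy n 0 with h | h | h
      · left; right
        refine ⟨n.natAbs - 1, ?_, ?_⟩
        · show (((n.natAbs - 1 : ℕ) : ℤ) + 1) ∈ N
          have : (((n.natAbs - 1 : ℕ) : ℤ) + 1) = -n := by omega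
          rw [this]
          intro x hx
          rw [k_neg, k_neg, hn x hx]
        · show -((((n.natAbs - 1 : ℕ) : ℤ)) + 1) = n
          omega
      · right; exact h
      · left; left
        refine ⟨n.natAbs - 1, ?_, ?_⟩
        · show (((n.natAbs - 1 : ℕ) : ℤ) + 1) ∈ N
          have : (((n.natAbs - 1 : ℕ) : ℤ) + 1) = n := by omega
          rwa [this]
        · show ((((n.natAbs - 1 : ℕ) : ℤ)) + 1) = n
          omega
    exact (((hfin.image _).union (hfin.image _)).union (Set.finite_singleton 0)).subset this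
  -- the linear map
  let L : ℝ[X] →ₗ[ℝ] (V →₀ ℝ) :=
    { toFun := fun p => aeval (Top G ℝ d) p (dl g g')
      map_add' := fun p q => by simp
      map_smul' := fun a p => by simp }
  have hL : ∀ p, L p = aeval (Top G ℝ d) p (dl g g') := fun p => rfl
  have hnotinj : ¬ Function.Injective L := by
    intro hinj
    have hker : LinearMap.ker L = ⊥ := LinearMap.ker_eq_bot.mpr hinj
    have hli : LinearIndependent ℝ (fun m : N' => chebSeq (m : ℕ)) :=
      chebSeq.linearIndependent.comp _ Subtype.val_injective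
    have hli2 : LinearIndependent ℝ (fun m : N' => L (chebSeq (m : ℕ))) := hli.map' L hker
    have hmem : ∀ m : N', L (chebSeq (m : ℕ)) ∈ Finsupp.supported ℝ ℝ S := by
      intro m
      rw [Finsupp.mem_supported]
      intro x hx
      by_contra hxS
      rw [Finset.mem_coe, Finsupp.mem_support_iff] at hx
      apply hx
      have h1 : L (chebSeq (m : ℕ)) = J G ℝ d (((m : ℕ) : ℤ) + 1) (dl g g') := by
        rw [hL]; unfold J
        rw [add_sub_cancel_right]
        rfl
      rw [h1, J_dl, m.2 x hxS, sub_self]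
    have hli3 : LinearIndependent ℝ
        (fun m : N' => (⟨L (chebSeq (m : ℕ)), hmem m⟩ : Finsupp.supported ℝ ℝ S)) := by
      apply LinearIndependent.of_comp (Finsupp.supported ℝ ℝ S).subtype
      exact hli2
    haveI : Finite S := hS
    haveI : Module.Finite ℝ (Finsupp.supported ℝ ℝ S) :=
      Module.Finite.equiv (Finsupp.supportedEquivFinsupp (M := ℝ) (R := ℝ) S).symm
    have hfin := hli3.finite
    exact hinf' (Set.toFinite N')
  obtain ⟨p, hp0, hpL⟩ : ∃ p, p ≠ 0 ∧ L p = 0 := by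
    by_contra hcon
    push Not at hcon
    apply hnotinj
    rw [← LinearMap.ker_eq_bot, LinearMap.ker_eq_bot']
    intro p hp
    by_contra h
    exact hcon p h hp
  have hred : ∀ q, L q = L (q % p) := by
    intro q
    have h1 : q = p * (q / p) + q % p := (EuclideanDomain.div_add_mod q p).symm
    have h2 : L (p * (q / p)) = 0 := by
      rw [hL, mul_comm, map_mul, Module.End.mul_apply, ← hL p, hpL, map_zero]
    calc L q = L (p * (q / p) + q % p) := by rw [← h1]
      _ = L (q % p) := by rw [map_add, h2, zero_add]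
  refine ⟨(Finset.range (p.natDegree + 1)).biUnion
    (fun i => ((Top G ℝ d ^ i) (dl g g')).support), fun n x hx => ?_⟩
  have h3 : J G ℝ d n (dl g g') = L (Chebyshev.S ℝ (n - 1)) := rfl
  have h4 : J G ℝ d n (dl g g') x = 0 := by
    rw [h3, hred, hL, aeval_eq_sum_range' (n := p.natDegree + 1)]
    · rw [LinearMap.sum_apply, Finsupp.finsetSum_apply]
      apply Finset.sum_eq_zero
      intro i hi
      rw [LinearMap.smul_apply, Finsupp.smul_apply]
      have : x ∉ ((Top G ℝ d ^ i) (dl g g')).support := fun h =>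
        hx (Finset.mem_biUnion.mpr ⟨i, hi, h⟩)
      rw [Finsupp.notMem_support_iff.mp this, smul_zero]
    · have := degree_mod_lt (Chebyshev.S ℝ (n - 1)) hp0
      have h5 := natDegree_le_natDegree this.le
      omega
  rw [J_dl] at h4
  have : (k G d n g x : ℝ) = k G d n g' x := by linarith
  exact_mod_cast this

/-- matrix of `T` on a finite set -/
noncomputable def MZ (Z : Finset V) [DecidableEq V] [DecidableRel G.Adj] (d : ℕ) : Matrix Z Z ℝ :=
  fun x y => (if x = y then (d : ℝ) + 2 else 0) - (if G.Adj x y then 1 else 0)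

lemma MZ_mulVec (Z : Finset V) [DecidableEq V] [DecidableRel G.Adj] (φ : V →₀ ℝ)
    (hφ : ∀ x, x ∉ Z → φ x = 0) (x : Z) :
    (MZ G Z d).mulVec (fun y => φ y) x = Top G ℝ d φ x := by
  rw [Top_apply]
  simp only [Matrix.mulVec, dotProduct, MZ, sub_mul, Finset.sum_sub_distrib, ite_mul, zero_mul,
    one_mul]
  congr 1
  · rw [Finset.sum_ite_eq]; simp
  · have h1 : ∑ y : Z, (if G.Adj x y then φ y else 0)
        = ∑ y ∈ Z, (if G.Adj x y then φ y else 0) := by
      rw [Finset.sum_coe_sort Z (fun y => if G.Adj x y then φ y else 0)]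
    rw [h1, ← Finset.sum_filter]
    symm
    rw [← Finset.sum_filter_of_ne (s := G.neighborFinset x) (p := fun y => y ∈ Z)]
    · apply Finset.sum_congr _ (fun _ _ => rfl)
      ext y; simp [and_comm]
    · intro y _ hy
      by_contra h
      exact hy (hφ y h)

lemma pair_restrict (Z : Finset V) (φ ψ : V →₀ ℝ) (hφ : ∀ x, x ∉ Z → φ x = 0) :
    pair φ ψ = (fun x : Z => φ x) ⬝ᵥ (fun x : Z => ψ x) := by
  rw [pair_eq_sum_of_subset φ ψ Z]
  · rw [dotProduct, Finset.sum_coe_sort Z (fun x => φ x * ψ x)]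
  · intro x hx
    by_contra h
    exact (Finsupp.mem_support_iff.mp hx) (hφ x h)

/-- exponential sums along a finite orbit -/
lemma orbit_exp [Infinite V] (hd : ∀ v, G.degree v = d) (hc : G.Connected) (g g' : V)
    (Z : Finset V) (hZ : ∀ n x, x ∉ Z → k G d n g x = k G d n g' x) (s1 s0 : V → ℝ) :
    ExpSum (fun n : ℕ => pair (J G ℝ d (n : ℤ) (dl g g')) s1
      - pair (J G ℝ d ((n : ℤ) - 1) (dl g g')) s0) ∧
    ExpSum (fun n : ℕ => pair (J G ℝ d (-(n : ℤ)) (dl g g')) s1
      - pair (J G ℝ d (-(n : ℤ) - 1) (dl g g')) s0) := by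
  classical
  have hsupp : ∀ n x, x ∉ Z → J G ℝ d n (dl g g') x = 0 := by
    intro n x hx
    rw [J_dl, hZ n x hx, sub_self]
  have hM : (MZ G Z d).IsHermitian := by
    apply Matrix.IsHermitian.ext
    intro i j
    simp only [MZ, star_trivial, eq_comm, G.adj_comm]
  have hpos : ∀ v : Z → ℝ, v ≠ 0 → 2 * (v ⬝ᵥ v) < v ⬝ᵥ ((MZ G Z d).mulVec v) := by
    intro v hv
    let φ : V →₀ ℝ := Finsupp.onFinset Z (fun x => if h : x ∈ Z then v ⟨x, h⟩ else 0)
      (by intro x hx; by_contra h; simp [h] at hx)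
    have hφ1 : ∀ x, x ∉ Z → φ x = 0 := by intro x hx; simp [φ, hx]
    have hφ2 : (fun x : Z => φ x) = v := by funext x; simp [φ]
    have hφ0 : φ ≠ 0 := by
      intro h0
      apply hv
      rw [← hφ2, h0]; rfl
    have h1 := Lap_pos G hd hc φ hφ0
    have h2 : pair φ (Lap G d φ) = pair φ (Top G ℝ d φ) - 2 * pair φ φ := by
      rw [pair_comm φ (Lap G d φ), pair_comm φ (Top G ℝ d φ)]
      simp only [Lap, LinearMap.sub_apply, LinearMap.smul_apply, Module.End.one_apply, pair_sub,
        pair_smul]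
    have h3 : pair φ (Top G ℝ d φ) = v ⬝ᵥ ((MZ G Z d).mulVec v) := by
      rw [pair_restrict Z φ _ hφ1, hφ2]
      congr 1
      funext x
      rw [← MZ_mulVec G Z φ hφ1 x, hφ2]
    have h4 : pair φ φ = v ⬝ᵥ v := by
      rw [pair_restrict Z φ _ hφ1, hφ2]
    rw [h2, h3, h4] at h1
    linarith
  let w : ℤ → Z → ℝ := fun n x => J G ℝ d n (dl g g') x
  have hw : ∀ n : ℤ, w (n + 1) = (MZ G Z d).mulVec (w n) - w (n - 1) := by
    intro n
    funext x
    show J G ℝ d (n + 1) (dl g g') x = (MZ G Z d).mulVec (w n) x - J G ℝ d (n - 1) (dl g g') x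
    rw [show w n = fun y : Z => J G ℝ d n (dl g g') y from rfl,
      MZ_mulVec G Z _ (hsupp n) x, J_add_one, LinearMap.sub_apply, Finsupp.sub_apply,
      Module.End.mul_apply]
  have hpair : ∀ (n : ℤ) (f : V → ℝ), pair (J G ℝ d n (dl g g')) f
      = (fun x : Z => f x) ⬝ᵥ w n := by
    intro n f
    rw [pair_eq_sum_of_subset _ f Z]
    · rw [dotProduct_comm, dotProduct, Finset.sum_coe_sort Z (fun x => J G ℝ d n (dl g g') x * f x)]
    · intro x hx
      by_contra h
      exact (Finsupp.mem_support_iff.mp hx) (hsupp n x h)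
  have hfwd : ∀ (c : ℤ) (u : Z → ℝ), ExpSum (fun n : ℕ => u ⬝ᵥ w ((n : ℤ) + c)) := by
    intro c u
    apply ExpSum.vec (MZ G Z d) hM hpos (w := fun n : ℕ => w ((n : ℤ) + c))
    intro n
    have := hw ((n : ℤ) + 1 + c)
    push_cast
    rw [show (n : ℤ) + 2 + c = (n : ℤ) + 1 + c + 1 by ring, this,
      show (n : ℤ) + 1 + c - 1 = n + c by ring]
  have hbwd : ∀ (c : ℤ) (u : Z → ℝ), ExpSum (fun n : ℕ => u ⬝ᵥ w (-(n : ℤ) + c)) := by
    intro c u
    apply ExpSum.vec (MZ G Z d) hM hpos (w := fun n : ℕ => w (-(n : ℤ) + c))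
    intro n
    have := hw (-((n : ℤ) + 1) + c)
    push_cast
    rw [show -((n : ℤ) + 2) + c = -((n : ℤ) + 1) + c - 1 by ring,
      show -(n : ℤ) + c = -((n : ℤ) + 1) + c + 1 by ring, this]
    abel
  constructor
  · have h1 := (hfwd 0 (fun x => s1 x)).add ((hfwd (-1) (fun x => s0 x)).smul (-1))
    convert h1 using 2 with n
    rw [hpair, hpair, add_zero, ← sub_eq_add_neg (n : ℤ) 1]
    ring
  · have h1 := (hbwd 0 (fun x => s1 x)).add ((hbwd (-1) (fun x => s0 x)).smul (-1))
    convert h1 using 2 with n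
    rw [hpair, hpair, add_zero, ← sub_eq_add_neg (-(n : ℤ)) 1]
    ring

end Pool.Agent.R692.HL
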