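import Pool.Agent.R692.HL.Dist
import Pool.Agent.R692.HL.Orbit
import Pool.Agent.R692.HL.Greedy

/-! # Harmonic labelings: the construction -/

namespace Pool.Agent.R692.HL

open Finset

variable {V : Type*} (G : SimpleGraph V) [G.LocallyFinite] (d : ℕ)

/-- evaluation functional of the position `(g, n)` in terms of the data on layers `0`, `1` -/
noncomputable def rho (p : V × ℤ) : V × Bool →₀ ℤ :=
  Finsupp.mapDomain (fun h => (h, true)) (row G d p.2 p.1)
    - Finsupp.mapDomain (fun h => (h, false)) (row G d (p.2 - 1) p.1)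

lemma inj_pair (b : Bool) : Function.Injective (fun h : V => (h, b)) := fun _ _ h => by
  simpa using h

lemma rho_true (g : V) (n : ℤ) (h : V) : rho G d (g, n) (h, true) = k G d n g h := by
  unfold rho
  rw [Finsupp.sub_apply]
  have h1 : Finsupp.mapDomain (fun h : V => (h, true)) (row G d n g) (h, true) = row G d n g h :=
    Finsupp.mapDomain_apply (inj_pair true) _ h
  have h2 : Finsupp.mapDomain (fun h : V => (h, false)) (row G d (n - 1) g) (h, true) = 0 := by
    apply Finsupp.mapDomain_of_notMem_range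
    rintro ⟨x, hx⟩
    simp at hx
  rw [h1, h2, sub_zero]; rfl

lemma rho_false (g : V) (n : ℤ) (h : V) : rho G d (g, n) (h, false) = - k G d (n - 1) g h := by
  unfold rho
  rw [Finsupp.sub_apply]
  have h1 : Finsupp.mapDomain (fun h : V => (h, false)) (row G d (n - 1) g) (h, false)
      = row G d (n - 1) g h := Finsupp.mapDomain_apply (inj_pair false) _ h
  have h2 : Finsupp.mapDomain (fun h : V => (h, true)) (row G d n g) (h, false) = 0 := by
    apply Finsupp.mapDomain_of_notMem_range
    rintro ⟨x, hx⟩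
    simp at hx
  rw [h1, h2, zero_sub]; rfl

lemma ev_rho (s : V × Bool → ℤ) (g : V) (n : ℤ) :
    ev (rho G d) s (g, n) = pair (row G d n g) (fun h => s (h, true))
      - pair (row G d (n - 1) g) (fun h => s (h, false)) := by
  unfold ev rho
  rw [pair_sub]
  simp only [pair, Finsupp.linearCombination_mapDomain]
  rfl

lemma ev_harm (s : V × Bool → ℤ) (g : V) (n : ℤ) :
    ((d : ℤ) + 2) * ev (rho G d) s (g, n) = ev (rho G d) s (g, n + 1) + ev (rho G d) s (g, n - 1)
      + ∑ w ∈ G.neighborFinset g, ev (rho G d) s (w, n) := by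
  simp only [ev_rho]
  have h1 : ∀ (n : ℤ) (f : V → ℤ), pair (row G d (n + 1) g) f = ((d : ℤ) + 2) * pair (row G d n g) f
      - ∑ w ∈ G.neighborFinset g, pair (row G d n w) f - pair (row G d (n - 1) g) f := by
    intro n f
    rw [row_add_one, pair_sub, pair_sub, pair_smul, pair_finset_sum]
  have h2 := h1 n (fun h => s (h, true))
  have h3 := h1 (n - 1) (fun h => s (h, false))
  rw [sub_add_cancel] at h3
  rw [h2, add_sub_cancel_right, h3, Finset.sum_sub_distrib]
  ring

def beta (b : V × Bool) : V × ℤ := (b.1, if b.2 then 1 else 0)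

lemma rho_beta (b : V × Bool) : rho G d (beta b) = Finsupp.single b 1 := by
  classical
  obtain ⟨h, c⟩ := b
  ext ⟨x, e⟩
  cases c <;> cases e
  · simp only [beta, Bool.false_eq_true, if_false]
    rw [rho_false, zero_sub, k_neg, k_one, Finsupp.single_apply]
    by_cases hx : h = x <;> simp [hx]
  · simp only [beta, Bool.false_eq_true, if_false]
    rw [rho_true, k_zero, Finsupp.single_apply]; simp
  · simp only [beta, if_true]
    rw [rho_false, sub_self, k_zero, Finsupp.single_apply]; simp
  · simp only [beta, if_true]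
    rw [rho_true, k_one, Finsupp.single_apply]
    by_cases hx : h = x <;> simp [hx]

lemma suppIn_iff (S : Finset (V × Bool)) (g g' : V) (n n' : ℤ) :
    SuppIn (rho G d) S (g, n) (g', n') ↔
      (∀ x, (x, true) ∉ S → k G d n g x = k G d n' g' x) ∧
      (∀ x, (x, false) ∉ S → k G d (n - 1) g x = k G d (n' - 1) g' x) := by
  constructor
  · intro h
    constructor
    · intro x hx
      have := h (x, true) hx
      rwa [rho_true, rho_true] at this
    · intro x hx
      have := h (x, false) hx
      rw [rho_false, rho_false] at this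
      linarith
  · rintro ⟨h1, h2⟩ ⟨x, c⟩ hx
    cases c
    · rw [rho_false, rho_false, h2 x hx]
    · rw [rho_true, rho_true, h1 x hx]

lemma SuppIn.symm {B P : Type*} {ρ : P → B →₀ ℤ} {S : Finset B} {x y : P} (h : SuppIn ρ S x y) :
    SuppIn ρ S y x := fun b hb => (h b hb).symm

lemma row_finite (n : ℤ) (g : V) : {x | k G d n g x ≠ 0}.Finite :=
  (row G d n g).support.finite_toSet.subset (fun x hx => by simpa [k] using hx)

variable {d}

section main

variable [Infinite V] (hc : G.Connected) (hd : ∀ v, G.degree v = d)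
  (ht : ∀ x y : V, ∃ φ : G ≃g G, φ x = y)

include hc hd ht

/-- same-row pairs: both vertices lie in the projection of `S` -/
lemma same_row (S1 S0 : Set V) {g g' : V} (hg : g ≠ g') (n : ℤ)
    (h1 : ∀ x, x ∉ S1 → k G d n g x = k G d n g' x)
    (h0 : ∀ x, x ∉ S0 → k G d (n - 1) g x = k G d (n - 1) g' x) :
    (n ≠ 0 → g ∈ S1 ∧ g' ∈ S1) ∧ (n = 0 → g ∈ S0 ∧ g' ∈ S0) := by
  have main : ∀ (m : ℤ) (S : Set V), m ≠ 0 → (∀ x, x ∉ S → k G d m g x = k G d m g' x) →
      g ∈ S ∧ g' ∈ S := by
    intro m S hm hS
    constructor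
    · by_contra hcon
      exact pos_key G hd ht (Or.inr hg) le_rfl hm (hS g hcon)
    · by_contra hcon
      exact pos_key G hd ht (Or.inr hg.symm) le_rfl hm (hS g' hcon).symm
  refine ⟨fun hn => main n S1 hn h1, fun hn => main (n - 1) S0 (by omega) h0⟩

lemma rho_injective : Function.Injective (rho G d) := by
  rintro ⟨g, n⟩ ⟨g', n'⟩ h
  have hs : SuppIn (rho G d) ∅ (g, n) (g', n') := fun b _ => by rw [h]
  rw [suppIn_iff] at hs
  obtain ⟨h1, h0⟩ := hs
  by_contra hne
  rcases eq_or_ne n n' with rfl | hn
  · have hg : g ≠ g' := by rintro rfl; exact hne rfl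
    have := same_row G hc hd ht ∅ ∅ hg n (fun x _ => h1 x (Finset.notMem_empty _))
      (fun x _ => h0 x (Finset.notMem_empty _))
    by_cases h00 : n = 0
    · exact (this.2 h00).1
    · exact (this.1 h00).1
  · rcases le_total n'.natAbs n.natAbs with hle | hle
    · exact (key_ne G hc hd ht hn hle ∅ (fun x _ => h1 x (Finset.notMem_empty _))).1
    · exact (key_ne G hc hd ht hn.symm hle ∅ (fun x _ => (h1 x (Finset.notMem_empty _)).symm)).1

/-- the finite set of possible dominating positions -/
def Phi (S1 : Set V) : Set (V × ℤ) := {p | p.1 ∈ S1 ∧ ∃ x ∈ S1, G.dist p.1 x + 1 = p.2.natAbs}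

omit [G.LocallyFinite] [Infinite V] hc hd ht in
lemma Phi_finite (S1 : Set V) (hS : S1.Finite) : (Phi G S1).Finite := by
  have : Phi G S1 ⊆ (fun q : V × V => (q.1, ((G.dist q.1 q.2 : ℤ) + 1))) '' (S1 ×ˢ S1) ∪
      (fun q : V × V => (q.1, -((G.dist q.1 q.2 : ℤ) + 1))) '' (S1 ×ˢ S1) := by
    rintro ⟨g, n⟩ ⟨h1, x, hx, h2⟩
    simp only at h1 h2
    rcases Int.natAbs_eq n with h | h
    · left
      refine ⟨(g, x), ⟨h1, hx⟩, ?_⟩
      simp only [Prod.mk.injEq, true_and]
      omega
    · right
      refine ⟨(g, x), ⟨h1, hx⟩, ?_⟩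
      simp only [Prod.mk.injEq, true_and]
      omega
  exact (((hS.prod hS).image _).union ((hS.prod hS).image _)).subset this

/-- pairs in different rows with difference supported in `S`, dominating position first -/
lemma diff_row (S : Finset (V × Bool)) {g g' : V} {n n' : ℤ} (hn : n ≠ n')
    (hle : n'.natAbs ≤ n.natAbs) (hs : SuppIn (rho G d) S (g, n) (g', n')) :
    (g, n) ∈ Phi G {x | (x, true) ∈ S} ∧
      (g' ∈ ({x | (x, true) ∈ S} ∪ {x | k G d n g x ≠ 0}) ∪
        ({x | (x, false) ∈ S} ∪ {x | k G d (n - 1) g x ≠ 0})) := by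
  rw [suppIn_iff] at hs
  obtain ⟨h1, h0⟩ := hs
  refine ⟨key_ne G hc hd ht hn hle {x | (x, true) ∈ S} h1, ?_⟩
  by_cases hn' : n' = 0
  · right
    by_cases hS : (g', false) ∈ S
    · left; exact hS
    · right
      show k G d (n - 1) g g' ≠ 0
      rw [h0 g' hS, hn', zero_sub, k_neg]
      classical
      simp [k_one]
  · left
    by_cases hS : (g', true) ∈ S
    · left; exact hS
    · right
      show k G d n g g' ≠ 0
      rw [h1 g' hS]
      intro h
      have hp := k_self_pos G hd (Int.natAbs_pos.mpr hn') g'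
      have := k_natAbs G (d := d) n' g' g'
      rw [h, abs_zero] at this
      have h3 := abs_eq_zero.mp this.symm
      omega

lemma diff_finite (S : Finset (V × Bool)) :
    {p : (V × ℤ) × (V × ℤ) | p.1.2 ≠ p.2.2 ∧ SuppIn (rho G d) S p.1 p.2}.Finite := by
  classical
  have hS1 : {x | (x, true) ∈ S}.Finite :=
    S.finite_toSet.preimage ((inj_pair true).injOn)
  have hS0 : {x | (x, false) ∈ S}.Finite :=
    S.finite_toSet.preimage ((inj_pair false).injOn)
  set F : Set ((V × ℤ) × (V × ℤ)) := ⋃ q ∈ Phi G {x | (x, true) ∈ S},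
    ({q} : Set (V × ℤ)) ×ˢ ((({x | (x, true) ∈ S} ∪ {x | k G d q.2 q.1 x ≠ 0}) ∪
        ({x | (x, false) ∈ S} ∪ {x | k G d (q.2 - 1) q.1 x ≠ 0})) ×ˢ
        (Set.Icc (-(q.2.natAbs : ℤ)) q.2.natAbs)) with hF
  have hFfin : F.Finite := by
    apply Set.Finite.biUnion (Phi_finite G _ hS1)
    intro q _
    exact (Set.finite_singleton q).prod
      (((hS1.union (row_finite G d _ _)).union (hS0.union (row_finite G d _ _))).prod
        (Set.finite_Icc _ _))
  apply (hFfin.union (hFfin.image Prod.swap)).subset
  rintro ⟨⟨g, n⟩, ⟨g', n'⟩⟩ ⟨hn, hs⟩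
  simp only at hn hs
  have key : ∀ (g g' : V) (n n' : ℤ), n ≠ n' → n'.natAbs ≤ n.natAbs →
      SuppIn (rho G d) S (g, n) (g', n') → ((g, n), (g', n')) ∈ F := by
    intro g g' n n' hn hle hs
    obtain ⟨h1, h2⟩ := diff_row G hc hd ht S hn hle hs
    rw [hF]
    simp only [Set.mem_iUnion]
    refine ⟨(g, n), h1, rfl, h2, ?_⟩
    simp only [Set.mem_Icc]
    omega
  rcases le_total n'.natAbs n.natAbs with hle | hle
  · left; exact key g g' n n' hn hle hs
  · right
    exact ⟨((g', n'), (g, n)), key g' g n' n hn.symm hle hs.symm, rfl⟩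

end main

lemma ev_update [DecidableEq (V × Bool)] (s : V × Bool → ℤ) (b : V × Bool) (v : ℤ) (x : V × ℤ) :
    ev (rho G d) (Function.update s b v) x
      = ev (rho G d) (Function.update s b 0) x + v * rho G d x b := by
  unfold ev
  generalize rho G d x = φ
  induction φ using Finsupp.induction_linear with
  | zero => simp
  | add f g hf hg => rw [pair_add, pair_add, hf, hg, Finsupp.add_apply]; ring
  | single c a =>
    rw [pair_single, pair_single]
    by_cases h : c = b
    · subst h; simp; ring
    · simp [h]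

lemma ev_update_of_eq [DecidableEq (V × Bool)] (s : V × Bool → ℤ) (b : V × Bool) (v : ℤ)
    (x y : V × ℤ) (h : rho G d x b = rho G d y b) :
    ev (rho G d) (Function.update s b v) x - ev (rho G d) (Function.update s b v) y
      = ev (rho G d) s x - ev (rho G d) s y := by
  have h1 := ev_update G (d := d) s b v x
  have h2 := ev_update G (d := d) s b v y
  have h3 := ev_update G (d := d) s b (s b) x
  have h4 := ev_update G (d := d) s b (s b) y
  rw [Function.update_eq_self] at h3 h4
  rw [h1, h2, h3, h4, h]; ring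

lemma goodS_insert [DecidableEq (V × Bool)] (S : Finset (V × Bool)) (s : V × Bool → ℤ)
    (b : V × Bool) (v : ℤ) (hg : GoodS (rho G d) S s)
    (h : ∀ x y, x ≠ y → SuppIn (rho G d) (insert b S) x y → rho G d x b ≠ rho G d y b →
      ev (rho G d) (Function.update s b v) x ≠ ev (rho G d) (Function.update s b v) y) :
    GoodS (rho G d) (insert b S) (Function.update s b v) := by
  intro x y hxy hs
  by_cases hb : rho G d x b = rho G d y b
  · have hs' : SuppIn (rho G d) S x y := by
      intro c hc
      by_cases hcb : c = b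
      · rw [hcb, hb]
      · exact hs c (by simp [hcb, hc])
    have h1 := hg x y hxy hs'
    have h2 := ev_update_of_eq G (d := d) s b v x y hb
    intro h3
    rw [h3, sub_self] at h2
    exact h1 (sub_eq_zero.mp h2.symm)
  · exact h x y hxy hs hb

section main2

variable [Infinite V] (hc : G.Connected) (hd : ∀ v, G.degree v = d)
  (ht : ∀ x y : V, ∃ φ : G ≃g G, φ x = y)

/-- difference of values in a row as a real pairing -/
lemma ev_diff_cast (s : V × Bool → ℤ) (g g' : V) (n : ℤ) :
    ((ev (rho G d) s (g, n) - ev (rho G d) s (g', n) : ℤ) : ℝ)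
      = pair (J G ℝ d n (dl g g')) (fun h => (s (h, true) : ℝ))
        - pair (J G ℝ d (n - 1) (dl g g')) (fun h => (s (h, false) : ℝ)) := by
  classical
  have key : ∀ (n : ℤ) (f : V → ℤ), ((pair (row G d n g) f - pair (row G d n g') f : ℤ) : ℝ)
      = pair (J G ℝ d n (dl g g')) (fun h => (f h : ℝ)) := by
    intro n f
    rw [← pair_sub]
    set U := (row G d n g - row G d n g').support ∪ (J G ℝ d n (dl g g')).support with hU
    rw [pair_eq_sum_of_subset _ f U subset_union_left,
      pair_eq_sum_of_subset _ _ U subset_union_right]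
    push_cast
    refine Finset.sum_congr rfl fun x _ => ?_
    rw [J_dl, Pi.sub_apply]
    push_cast
    rfl
  rw [ev_rho, ev_rho]
  have h1 := key n (fun h => s (h, true))
  have h2 := key (n - 1) (fun h => s (h, false))
  rw [← h1, ← h2]
  push_cast
  ring

include hc hd ht

lemma small_row [DecidableEq (V × Bool)] (S : Finset (V × Bool)) (s : V × Bool → ℤ)
    (b : V × Bool) (g g' : V) :
    Small {m : ℕ | ∃ n : ℤ, SuppIn (rho G d) S (g, n) (g', n) ∧
      rho G d (g, n) b - rho G d (g', n) b ≠ 0 ∧
      (rho G d (g, n) b - rho G d (g', n) b) * m + (ev (rho G d) (Function.update s b 0) (g, n)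
        - ev (rho G d) (Function.update s b 0) (g', n)) = 0} := by
  classical
  set c : ℤ → ℤ := fun n => rho G d (g, n) b - rho G d (g', n) b with hcdef
  set e : ℤ → ℤ := fun n => ev (rho G d) (Function.update s b 0) (g, n)
        - ev (rho G d) (Function.update s b 0) (g', n) with hedef
  set S1 : Set V := {x | (x, true) ∈ S} with hS1
  have hS1f : S1.Finite := S.finite_toSet.preimage ((inj_pair true).injOn)
  by_cases hinf : {n : ℤ | ∀ x, x ∉ S1 → k G d n g x = k G d n g' x}.Infinite
  · obtain ⟨Z, hZ⟩ := orbit G g g' S1 hS1f hinf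
    -- c as an evaluation difference
    have hcev : ∀ n, c n = ev (rho G d) (Pi.single b 1) (g, n) - ev (rho G d) (Pi.single b 1) (g', n) := by
      intro n
      have h1 : ∀ x, ev (rho G d) (Pi.single b 1) x = rho G d x b := by
        intro x
        unfold ev
        generalize rho G d x = φ
        induction φ using Finsupp.induction_linear with
        | zero => simp
        | add f g hf hg => rw [pair_add, hf, hg, Finsupp.add_apply]
        | single c a =>
          rw [pair_single]
          by_cases h : c = b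
          · subst h; simp
          · simp [h]
      rw [h1, h1]
    obtain ⟨cf, cb⟩ := orbit_exp G hd hc g g' Z hZ
      (fun h => ((Pi.single b (1 : ℤ) : V × Bool → ℤ) (h, true) : ℝ))
      (fun h => ((Pi.single b (1 : ℤ) : V × Bool → ℤ) (h, false) : ℝ))
    obtain ⟨ef, eb⟩ := orbit_exp G hd hc g g' Z hZ
      (fun h => ((Function.update s b 0) (h, true) : ℝ))
      (fun h => ((Function.update s b 0) (h, false) : ℝ))
    have hcc : ∀ n, (c n : ℝ) = pair (J G ℝ d n (dl g g'))
        (fun h => ((Pi.single b (1 : ℤ) : V × Bool → ℤ) (h, true) : ℝ))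
        - pair (J G ℝ d (n - 1) (dl g g'))
        (fun h => ((Pi.single b (1 : ℤ) : V × Bool → ℤ) (h, false) : ℝ)) := by
      intro n; rw [hcev, ev_diff_cast]
    have hee : ∀ n, (e n : ℝ) = pair (J G ℝ d n (dl g g'))
        (fun h => ((Function.update s b 0) (h, true) : ℝ))
        - pair (J G ℝ d (n - 1) (dl g g'))
        (fun h => ((Function.update s b 0) (h, false) : ℝ)) := by
      intro n; rw [hedef]; exact ev_diff_cast G _ g g' n
    have cf' : ExpSum (fun n : ℕ => (c (n : ℤ) : ℝ)) := by
      convert cf using 2 with n; exact hcc _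
    have cb' : ExpSum (fun n : ℕ => (c (-(n : ℤ)) : ℝ)) := by
      convert cb using 2 with n; exact hcc _
    have ef' : ExpSum (fun n : ℕ => (e (n : ℤ) : ℝ)) := by
      convert ef using 2 with n; exact hee _
    have eb' : ExpSum (fun n : ℕ => (e (-(n : ℤ)) : ℝ)) := by
      convert eb using 2 with n; exact hee _
    apply ((small_zeros cf' ef').union (small_zeros cb' eb')).mono
    rintro m ⟨n, _, h1, h2⟩
    rcases Int.eq_nat_or_neg n with ⟨j, rfl | rfl⟩
    · left
      refine ⟨j, ?_, ?_⟩
      · exact_mod_cast h1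
      · exact_mod_cast h2
    · right
      refine ⟨j, ?_, ?_⟩
      · exact_mod_cast h1
      · exact_mod_cast h2
  · rw [Set.not_infinite] at hinf
    apply Small.of_finite
    have hsub : {m : ℕ | ∃ n : ℤ, SuppIn (rho G d) S (g, n) (g', n) ∧ c n ≠ 0 ∧ c n * m + e n = 0} ⊆
        ⋃ n ∈ {n : ℤ | ∀ x, x ∉ S1 → k G d n g x = k G d n g' x},
          {m : ℕ | c n ≠ 0 ∧ c n * m + e n = 0} := by
      rintro m ⟨n, hs, h1, h2⟩
      simp only [Set.mem_iUnion]
      exact ⟨n, ((suppIn_iff G d S g g' n n).mp hs).1, h1, h2⟩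
    apply (Set.Finite.biUnion hinf ?_).subset hsub
    intro n _
    apply Set.Subsingleton.finite
    rintro m ⟨h1, h2⟩ m' ⟨_, h4⟩
    have : c n * ((m : ℤ) - m') = 0 := by linarith
    have := (mul_eq_zero.mp this).resolve_left h1
    omega

lemma extE [DecidableEq (V × Bool)] (S : Finset (V × Bool)) (s : V × Bool → ℤ) (b : V × Bool)
    (hg : GoodS (rho G d) S s) :
    ∃ v, GoodS (rho G d) (insert b S) (Function.update s b v) := by
  classical
  set S' := insert b S with hS'
  set D := {p : (V × ℤ) × (V × ℤ) | p.1.2 ≠ p.2.2 ∧ SuppIn (rho G d) S' p.1 p.2} with hD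
  have hDfin : D.Finite := diff_finite G hc hd ht S'
  set Pr : Set V := (fun q : V × Bool => q.1) '' (S' : Set (V × Bool)) with hPr
  have hPrfin : Pr.Finite := S'.finite_toSet.image _
  set cc : V × ℤ → V × ℤ → ℤ := fun x y => rho G d x b - rho G d y b with hcc
  set ee : V × ℤ → V × ℤ → ℤ := fun x y => ev (rho G d) (Function.update s b 0) x
    - ev (rho G d) (Function.update s b 0) y with hee
  set X1 : Set ℕ := ⋃ p ∈ D, {m : ℕ | cc p.1 p.2 ≠ 0 ∧ cc p.1 p.2 * m + ee p.1 p.2 = 0} with hX1
  set X2 : Set ℕ := ⋃ q ∈ Pr ×ˢ Pr, {m : ℕ | ∃ n : ℤ, SuppIn (rho G d) S' (q.1, n) (q.2, n) ∧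
      cc (q.1, n) (q.2, n) ≠ 0 ∧ cc (q.1, n) (q.2, n) * m + ee (q.1, n) (q.2, n) = 0} with hX2
  have hX1s : Small X1 := by
    apply Small.biUnion hDfin
    intro p _
    apply Small.of_finite
    apply Set.Subsingleton.finite
    rintro m ⟨h1, h2⟩ m' ⟨_, h4⟩
    have : cc p.1 p.2 * ((m : ℤ) - m') = 0 := by linarith
    have := (mul_eq_zero.mp this).resolve_left h1
    omega
  have hX2s : Small X2 := by
    apply Small.biUnion (hPrfin.prod hPrfin)
    intro q _
    exact small_row G hc hd ht S' s b q.1 q.2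
  obtain ⟨m, hm⟩ := (hX1s.union hX2s).exists_notMem
  rw [Set.mem_union, not_or] at hm
  refine ⟨(m : ℤ), goodS_insert G S s b m hg ?_⟩
  intro x y hxy hs hb hev
  have hcne : cc x y ≠ 0 := sub_ne_zero.mpr hb
  have heq : cc x y * m + ee x y = 0 := by
    rw [ev_update G s b m x, ev_update G s b m y] at hev
    simp only [hcc, hee]
    linarith
  obtain ⟨g, n⟩ := x
  obtain ⟨g', n'⟩ := y
  by_cases hn : n = n'
  · subst hn
    apply hm.2
    simp only [hX2, Set.mem_iUnion]
    refine ⟨(g, g'), ?_, n, hs, hcne, heq⟩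
    have hgg : g ≠ g' := by rintro rfl; exact hxy rfl
    have hs2 := (suppIn_iff G d S' g g' n n).mp hs
    have := same_row G hc hd ht {x | (x, true) ∈ S'} {x | (x, false) ∈ S'} hgg n hs2.1 hs2.2
    by_cases h0 : n = 0
    · obtain ⟨a1, a2⟩ := this.2 h0
      exact ⟨⟨_, a1, rfl⟩, ⟨_, a2, rfl⟩⟩
    · obtain ⟨a1, a2⟩ := this.1 h0
      exact ⟨⟨_, a1, rfl⟩, ⟨_, a2, rfl⟩⟩
  · apply hm.1
    simp only [hX1, Set.mem_iUnion]
    exact ⟨((g, n), (g', n')), ⟨hn, hs⟩, hcne, heq⟩

lemma isoI [DecidableEq (V × Bool)] (S : Finset (V × Bool)) :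
    ∃ b, b ∉ S ∧ ∀ s, GoodS (rho G d) S s → ∀ v,
      (∀ x, (∀ c, c ∉ S → rho G d x c = 0) → ev (rho G d) s x ≠ v) →
      GoodS (rho G d) (insert b S) (Function.update s b v) := by
  classical
  set S1 : Set V := {x | (x, true) ∈ S} with hS1
  set S0 : Set V := {x | (x, false) ∈ S} with hS0
  have hS1f : S1.Finite := S.finite_toSet.preimage ((inj_pair true).injOn)
  have hS0f : S0.Finite := S.finite_toSet.preimage ((inj_pair false).injOn)
  -- forbidden vertices
  set Q1 : Set V := ⋃ q ∈ S1 ×ˢ S1, {h | ∃ n : ℤ, (∀ x, x ∉ S1 → k G d n q.1 x = k G d n q.2 x) ∧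
    k G d (n - 1) q.1 h ≠ k G d (n - 1) q.2 h} with hQ1
  have hQ1f : Q1.Finite := by
    apply Set.Finite.biUnion (hS1f.prod hS1f)
    intro q _
    by_cases hinf : {n : ℤ | ∀ x, x ∉ S1 → k G d n q.1 x = k G d n q.2 x}.Infinite
    · obtain ⟨Z, hZ⟩ := orbit G q.1 q.2 S1 hS1f hinf
      apply Z.finite_toSet.subset
      rintro h ⟨n, _, h2⟩
      by_contra hcon
      exact h2 (hZ (n - 1) h hcon)
    · rw [Set.not_infinite] at hinf
      have : {h | ∃ n : ℤ, (∀ x, x ∉ S1 → k G d n q.1 x = k G d n q.2 x) ∧
        k G d (n - 1) q.1 h ≠ k G d (n - 1) q.2 h} ⊆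
        ⋃ n ∈ {n : ℤ | ∀ x, x ∉ S1 → k G d n q.1 x = k G d n q.2 x},
          ({h | k G d (n - 1) q.1 h ≠ 0} ∪ {h | k G d (n - 1) q.2 h ≠ 0}) := by
        rintro h ⟨n, h1, h2⟩
        simp only [Set.mem_iUnion]
        refine ⟨n, h1, ?_⟩
        by_contra hcon
        rw [Set.mem_union, not_or] at hcon
        simp only [Set.mem_ofPred_eq, not_not] at hcon
        exact h2 (hcon.1.trans hcon.2.symm)
      exact (Set.Finite.biUnion hinf fun n _ =>
        (row_finite G d _ _).union (row_finite G d _ _)).subset this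
  set Ph := Phi G S1 with hPh
  have hPhf : Ph.Finite := Phi_finite G S1 hS1f
  set Q2 : Set V := ⋃ q ∈ Ph, {h | k G d (q.2 - 1) q.1 h ≠ 0} with hQ2
  have hQ2f : Q2.Finite := Set.Finite.biUnion hPhf fun q _ => row_finite G d _ _
  set Q3 : Set V := ⋃ q ∈ Ph, ⋃ g' ∈ (S1 ∪ {x | k G d q.2 q.1 x ≠ 0}),
    ⋃ n' ∈ Set.Icc (-(q.2.natAbs : ℤ)) q.2.natAbs, {h | k G d (n' - 1) g' h ≠ 0} with hQ3
  have hQ3f : Q3.Finite :=
    Set.Finite.biUnion hPhf fun q _ => Set.Finite.biUnion (hS1f.union (row_finite G d _ _))
      fun g' _ => Set.Finite.biUnion (Set.finite_Icc _ _) fun n' _ => row_finite G d _ _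
  obtain ⟨h, hh⟩ := (((hQ1f.union hQ2f).union hQ3f).union hS0f).exists_notMem
  simp only [Set.mem_union, not_or] at hh
  obtain ⟨⟨⟨hh1, hh2⟩, hh3⟩, hh4⟩ := hh
  refine ⟨(h, false), hh4, fun s hg v hv => ?_⟩
  set b : V × Bool := (h, false) with hb
  have hbS : b ∉ S := hh4
  -- the key classification
  have key : ∀ (g g' : V) (n n' : ℤ), (g, n) ≠ (g', n') →
      SuppIn (rho G d) (insert b S) (g, n) (g', n') →
      rho G d (g, n) b ≠ rho G d (g', n') b → n'.natAbs ≤ n.natAbs →
      ((g, n) = beta b ∧ ∀ c, c ∉ S → rho G d (g', n') c = 0) ∨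
      ((g', n') = beta b ∧ ∀ c, c ∉ S → rho G d (g, n) c = 0) := by
    intro g g' n n' hne hs hbb hle
    rw [suppIn_iff] at hs
    obtain ⟨h1, h0⟩ := hs
    have h1' : ∀ x, x ∉ S1 → k G d n g x = k G d n' g' x := by
      intro x hx
      apply h1
      rw [Finset.mem_insert, not_or]
      exact ⟨by simp [hb], hx⟩
    have h0' : ∀ x, x ≠ h → x ∉ S0 → k G d (n - 1) g x = k G d (n' - 1) g' x := by
      intro x hxh hx
      apply h0
      rw [Finset.mem_insert, not_or]
      exact ⟨by simp [hb, hxh], hx⟩
    have hbb' : k G d (n - 1) g h ≠ k G d (n' - 1) g' h := by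
      intro heq
      apply hbb
      rw [hb, rho_false, rho_false, heq]
    by_cases hn : n = n'
    · subst hn
      have hgg : g ≠ g' := by rintro rfl; exact hne rfl
      have hsr := same_row G hc hd ht S1 (insert h S0) hgg n h1' (by
        intro x hx
        rw [Set.mem_insert_iff, not_or] at hx
        exact h0' x hx.1 hx.2)
      by_cases hn0 : n = 0
      · subst hn0
        have hk : ∀ a x : V, k G d (0 - 1) a x = if a = x then -1 else 0 := by
          intro a x
          rw [zero_sub, k_neg, k_one]; split_ifs <;> simp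
        obtain ⟨a1, a2⟩ := hsr.2 rfl
        rw [hk, hk] at hbb'
        by_cases hgh : g = h
        · left
          refine ⟨by simp [beta, hb, hgh], ?_⟩
          have hg'h : g' ≠ h := fun h => hgg (hgh.trans h.symm)
          have hg'S : g' ∈ S0 := by
            rcases a2 with a2 | a2
            · exact absurd a2 hg'h
            · exact a2
          rintro ⟨x, c⟩ hx
          cases c
          · rw [rho_false, hk]
            have : g' ≠ x := by rintro rfl; exact hx hg'S
            simp [this]
          · rw [rho_true, k_zero]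
        · right
          have hg'h : g' = h := by
            by_contra hcon
            simp [hgh, hcon] at hbb'
          refine ⟨by simp [beta, hb, hg'h], ?_⟩
          have hgS : g ∈ S0 := by
            rcases a1 with a1 | a1
            · exact absurd a1 hgh
            · exact a1
          rintro ⟨x, c⟩ hx
          cases c
          · rw [rho_false, hk]
            have : g ≠ x := by rintro rfl; exact hx hgS
            simp [this]
          · rw [rho_true, k_zero]
      · exfalso
        obtain ⟨a1, a2⟩ := hsr.1 hn0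
        apply hh1
        rw [hQ1]
        simp only [Set.mem_iUnion]
        exact ⟨(g, g'), ⟨a1, a2⟩, n, h1', hbb'⟩
    · have hkey := key_ne G hc hd ht hn hle S1 h1'
      have hPhm : (g, n) ∈ Ph := hkey
      have hz : k G d (n - 1) g h = 0 := by
        by_contra hcon
        apply hh2
        rw [hQ2]
        simp only [Set.mem_iUnion]
        exact ⟨(g, n), hPhm, hcon⟩
      rw [hz] at hbb'
      by_cases hn' : n' = 0
      · subst hn'
        have hk : ∀ a x : V, k G d (0 - 1) a x = if a = x then -1 else 0 := by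
          intro a x
          rw [zero_sub, k_neg, k_one]; split_ifs <;> simp
        rw [hk] at hbb'
        have hg'h : g' = h := by
          by_contra hcon
          simp [hcon] at hbb'
        subst hg'h
        right
        refine ⟨by simp [beta, hb], ?_⟩
        rintro ⟨x, c⟩ hx
        cases c
        · rw [rho_false]
          by_cases hxh : x = g'
          · rw [hxh, hz, neg_zero]
          · rw [h0' x hxh hx, hk]
            have : g' ≠ x := fun h => hxh h.symm
            simp [this]
        · rw [rho_true, h1' x hx, k_zero]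
      · exfalso
        have hg' : g' ∈ S1 ∪ {x | k G d n g x ≠ 0} := by
          by_cases hgS : g' ∈ S1
          · left; exact hgS
          · right
            show k G d n g g' ≠ 0
            rw [h1' g' hgS]
            intro h
            have hp := k_self_pos G hd (Int.natAbs_pos.mpr hn') g'
            have := k_natAbs G (d := d) n' g' g'
            rw [h, abs_zero] at this
            have h3 := abs_eq_zero.mp this.symm
            omega
        apply hh3
        rw [hQ3]
        simp only [Set.mem_iUnion]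
        refine ⟨(g, n), hPhm, g', hg', n', ?_, fun h => hbb' h.symm⟩
        simp only [Set.mem_Icc]
        omega
  apply goodS_insert G S s b v hg
  intro x y hxy hs hbb
  -- evaluation at the new vertex
  have hevb : ev (rho G d) (Function.update s b v) (beta b) = v := by
    unfold ev
    rw [rho_beta, pair_single]; simp
  have hevS : ∀ z, (∀ c, c ∉ S → rho G d z c = 0) →
      ev (rho G d) (Function.update s b v) z = ev (rho G d) s z := by
    intro z hz
    apply ev_congr (rho G d) hz
    intro c hc
    have : c ≠ b := by rintro rfl; exact hbS hc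
    simp [this]
  have fin : ∀ x y : V × ℤ, (x = beta b ∧ ∀ c, c ∉ S → rho G d y c = 0) →
      ev (rho G d) (Function.update s b v) x ≠ ev (rho G d) (Function.update s b v) y := by
    rintro x y ⟨rfl, hy⟩
    rw [hevb, hevS y hy]
    exact (hv y hy).symm
  obtain ⟨g, n⟩ := x
  obtain ⟨g', n'⟩ := y
  rcases le_total n'.natAbs n.natAbs with hle | hle
  · rcases key g g' n n' hxy hs hbb hle with h | h
    · exact fin _ _ h
    · exact (fin _ _ h).symm
  · rcases key g' g n' n hxy.symm hs.symm hbb.symm hle with h | h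
    · exact (fin _ _ h).symm
    · exact fin _ _ h

theorem exists_labeling [Countable V] : ∃ s : V × Bool → ℤ, Function.Bijective (ev (rho G d) s) := by
  classical
  haveI : Nonempty V := inferInstance
  apply greedy (rho G d) beta (rho_beta G d) (rho_injective G hc hd ht)
  · intro S s b _ hg
    exact extE G hc hd ht S s b hg
  · intro S
    exact isoI G hc hd ht S

end main2

end Pool.Agent.R692.HL
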