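import Mathlib

/-! # Harmonic labelings of `G × ℤ`: the adjacency operator and its Chebyshev polynomials -/

namespace Pool.Agent.R692.HL

open Finset Polynomial

variable {V : Type*} (G : SimpleGraph V) [G.LocallyFinite] (R : Type*) [CommRing R]

/-- adjacency operator on finitely supported functions -/
noncomputable def Aop : (V →₀ R) →ₗ[R] (V →₀ R) :=
  Finsupp.linearCombination R (fun v => ∑ w ∈ G.neighborFinset v, Finsupp.single w (1 : R))

lemma Aop_single (v : V) (a : R) :
    Aop G R (Finsupp.single v a) = a • ∑ w ∈ G.neighborFinset v, Finsupp.single w (1 : R) := by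
  simp [Aop]

lemma Aop_apply (φ : V →₀ R) (x : V) :
    Aop G R φ x = ∑ w ∈ G.neighborFinset x, φ w := by
  classical
  induction φ using Finsupp.induction_linear with
  | zero => simp
  | add f g hf hg => simp [hf, hg, Finset.sum_add_distrib]
  | single v a =>
    rw [Aop_single, Finsupp.smul_apply, Finsupp.finsetSum_apply]
    simp only [Finsupp.single_apply, smul_eq_mul]
    rw [Finset.mul_sum]
    have h1 : ∀ i ∈ G.neighborFinset v, a * (if i = x then (1 : R) else 0) = if i = x then a else 0 := by
      intro i _; split_ifs <;> simp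
    rw [Finset.sum_congr rfl h1, Finset.sum_ite_eq', Finset.sum_ite_eq]
    simp [G.adj_comm]

/-- `T = (d + 2) - A` -/
noncomputable def Top (d : ℕ) : Module.End R (V →₀ R) := ((d : R) + 2) • 1 - Aop G R

lemma Top_apply (d : ℕ) (φ : V →₀ R) (x : V) :
    Top G R d φ x = ((d : R) + 2) * φ x - ∑ w ∈ G.neighborFinset x, φ w := by
  simp [Top, Aop_apply]

/-- `J n = S_{n-1}(T)`, so `J 0 = 0`, `J 1 = 1`, `J (n+1) = T J n - J (n-1)` -/
noncomputable def J (d : ℕ) (n : ℤ) : Module.End R (V →₀ R) :=
  aeval (Top G R d) (Chebyshev.S R (n - 1))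

lemma J_zero (d : ℕ) : J G R d 0 = 0 := by
  simp [J]

lemma J_one (d : ℕ) : J G R d 1 = 1 := by
  simp [J]

lemma J_neg (d : ℕ) (n : ℤ) : J G R d (-n) = - J G R d n := by
  unfold J
  rw [Chebyshev.S_neg_sub_one]; simp

lemma J_add_one (d : ℕ) (n : ℤ) :
    J G R d (n + 1) = Top G R d * J G R d n - J G R d (n - 1) := by
  unfold J
  have : n + 1 - 1 = (n - 1) + 1 := by ring
  rw [this, Chebyshev.S_add_one]
  simp [map_sub, map_mul]

lemma J_comm (d : ℕ) (n : ℤ) : Commute (Top G R d) (J G R d n) := by
  unfold J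
  have : Top G R d = aeval (Top G R d) (X : R[X]) := by simp
  nth_rewrite 1 [this]
  exact (Commute.all _ _).map (aeval (Top G R d))

lemma J_add_one' (d : ℕ) (n : ℤ) :
    J G R d (n + 1) = J G R d n * Top G R d - J G R d (n - 1) := by
  rw [J_add_one, (J_comm G R d n).eq]

/-- pairing with an arbitrary function -/
noncomputable def pair {R : Type*} [CommRing R] (φ : V →₀ R) (f : V → R) : R :=
  Finsupp.linearCombination R f φ

section pair

variable {R}

lemma pair_add (φ ψ : V →₀ R) (f : V → R) : pair (φ + ψ) f = pair φ f + pair ψ f := by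
  simp [pair]

lemma pair_sub (φ ψ : V →₀ R) (f : V → R) : pair (φ - ψ) f = pair φ f - pair ψ f := by
  simp [pair]

lemma pair_neg (φ : V →₀ R) (f : V → R) : pair (-φ) f = - pair φ f := by
  simp [pair]

lemma pair_smul (a : R) (φ : V →₀ R) (f : V → R) : pair (a • φ) f = a * pair φ f := by
  simp [pair]

@[simp] lemma pair_zero (f : V → R) : pair (0 : V →₀ R) f = 0 := by
  simp [pair]

@[simp] lemma pair_single (v : V) (a : R) (f : V → R) : pair (Finsupp.single v a) f = a * f v := by
  simp [pair]

lemma pair_eq_sum (φ : V →₀ R) (f : V → R) : pair φ f = ∑ x ∈ φ.support, φ x * f x := by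
  simp [pair, Finsupp.linearCombination_apply, Finsupp.sum]

lemma pair_eq_sum_of_subset (φ : V →₀ R) (f : V → R) (s : Finset V) (hs : φ.support ⊆ s) :
    pair φ f = ∑ x ∈ s, φ x * f x := by
  rw [pair_eq_sum]
  apply Finset.sum_subset hs
  intro x _ hx
  simp [Finsupp.notMem_support_iff.mp hx]

lemma pair_finset_sum {ι : Type*} (s : Finset ι) (φ : ι → V →₀ R) (f : V → R) :
    pair (∑ i ∈ s, φ i) f = ∑ i ∈ s, pair (φ i) f := by
  simp [pair]

lemma pair_comm (φ ψ : V →₀ R) : pair φ ψ = pair ψ φ := by
  classical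
  rw [pair_eq_sum_of_subset φ ψ (φ.support ∪ ψ.support) subset_union_left,
    pair_eq_sum_of_subset ψ φ (φ.support ∪ ψ.support) subset_union_right]
  exact Finset.sum_congr rfl fun x _ => mul_comm _ _

lemma pair_Aop (φ : V →₀ R) (f : V → R) :
    pair (Aop G R φ) f = pair φ (fun v => ∑ w ∈ G.neighborFinset v, f w) := by
  induction φ using Finsupp.induction_linear with
  | zero => simp
  | add f g hf hg => rw [map_add, pair_add, pair_add, hf, hg]
  | single v a =>
    rw [Aop_single, pair_smul, pair_finset_sum, pair_single]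
    simp

lemma pair_Top_left (d : ℕ) (φ ψ : V →₀ R) :
    pair (Top G R d φ) ψ = pair φ (Top G R d ψ) := by
  have h1 : pair (Top G R d φ) ψ = ((d : R) + 2) * pair φ ψ - pair (Aop G R φ) ψ := by
    simp only [Top, LinearMap.sub_apply, LinearMap.smul_apply, Module.End.one_apply, pair_sub,
      pair_smul]
  have h2 : pair φ (Top G R d ψ) = ((d : R) + 2) * pair φ ψ - pair φ (Aop G R ψ) := by
    rw [pair_comm φ (Top G R d ψ), pair_comm φ ψ, pair_comm φ (Aop G R ψ)]
    simp only [Top, LinearMap.sub_apply, LinearMap.smul_apply, Module.End.one_apply, pair_sub,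
      pair_smul]
  rw [h1, h2, pair_Aop]
  congr 2
  funext v
  rw [Aop_apply]

lemma pair_aeval (d : ℕ) (p : R[X]) (φ ψ : V →₀ R) :
    pair (aeval (Top G R d) p φ) ψ = pair φ (aeval (Top G R d) p ψ) := by
  induction p using Polynomial.induction_on' with
  | add p q hp hq =>
    rw [map_add, LinearMap.add_apply, LinearMap.add_apply, pair_add, hp, hq,
      pair_comm φ (_ + _), pair_add, pair_comm φ, pair_comm φ]
  | monomial n a =>
    rw [aeval_monomial]
    have key : ∀ n : ℕ, ∀ φ ψ : V →₀ R,
        pair ((Top G R d ^ n) φ) ψ = pair φ ((Top G R d ^ n) ψ) := by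
      intro n
      induction n with
      | zero => intro φ ψ; simp
      | succ n ih =>
        intro φ ψ
        rw [pow_succ, Module.End.mul_apply, ih, pair_Top_left, ← Module.End.mul_apply,
          ← pow_succ', ← pow_succ]
    have h3 : ∀ χ : V →₀ R, (algebraMap R (Module.End R (V →₀ R)) a * Top G R d ^ n) χ
        = a • ((Top G R d ^ n) χ) := by
      intro χ; simp [Module.End.mul_apply]
    rw [h3, h3, pair_smul, key, pair_comm φ (a • _), pair_smul, pair_comm]

lemma pair_J (d : ℕ) (n : ℤ) (φ ψ : V →₀ R) :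
    pair (J G R d n φ) ψ = pair φ (J G R d n ψ) := pair_aeval G d _ φ ψ

end pair

end Pool.Agent.R692.HL
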