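import Pool.Agent.R692.HL.Op

/-! # Positivity of the Chebyshev polynomials of the Laplacian -/

namespace Pool.Agent.R692.HL

open Finset Polynomial

variable {V : Type*} (G : SimpleGraph V) [G.LocallyFinite] (d : ℕ)

noncomputable def Lap : Module.End ℝ (V →₀ ℝ) := Top G ℝ d - (2 : ℝ) • 1

lemma Lap_apply (φ : V →₀ ℝ) (x : V) :
    Lap G d φ x = (d : ℝ) * φ x - ∑ w ∈ G.neighborFinset x, φ w := by
  simp [Lap, Top_apply]; ring

lemma Top_eq : Top G ℝ d = Lap G d + (2 : ℝ) • 1 := by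
  apply LinearMap.ext
  intro φ
  simp [Lap]

lemma pair_Lap (φ ψ : V →₀ ℝ) : pair (Lap G d φ) ψ = pair φ (Lap G d ψ) := by
  have h1 : pair (Lap G d φ) ψ = pair (Top G ℝ d φ) ψ - 2 * pair φ ψ := by
    simp only [Lap, LinearMap.sub_apply, LinearMap.smul_apply, Module.End.one_apply, pair_sub,
      pair_smul]
  have h2 : pair φ (Lap G d ψ) = pair φ (Top G ℝ d ψ) - 2 * pair φ ψ := by
    rw [pair_comm φ (Lap G d ψ), pair_comm φ ψ, pair_comm φ (Top G ℝ d ψ)]
    simp only [Lap, LinearMap.sub_apply, LinearMap.smul_apply, Module.End.one_apply, pair_sub,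
      pair_smul]
  rw [h1, h2, pair_Top_left]

variable {d}

lemma quad (hd : ∀ v, G.degree v = d) (φ : V →₀ ℝ) :
    ∃ s : Finset V, φ.support ⊆ s ∧
      2 * pair φ (Lap G d φ) = ∑ x ∈ s, ∑ y ∈ G.neighborFinset x, (φ x - φ y) ^ 2 := by
  classical
  set ψ : V →₀ ℝ := φ.mapRange (fun a => a ^ 2) (by simp) with hψ
  refine ⟨φ.support ∪ (Aop G ℝ ψ).support, subset_union_left, ?_⟩
  set s := φ.support ∪ (Aop G ℝ ψ).support with hs
  have e1 : pair φ (Lap G d φ) = ∑ x ∈ s, (φ x * ((d : ℝ) * φ x - ∑ w ∈ G.neighborFinset x, φ w)) := by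
    rw [pair_eq_sum_of_subset φ _ s subset_union_left]
    exact Finset.sum_congr rfl fun x _ => by rw [Lap_apply]
  have e2 : ∑ x ∈ s, ∑ y ∈ G.neighborFinset x, (φ y) ^ 2 = (d : ℝ) * ∑ x ∈ s, (φ x) ^ 2 := by
    have a1 : pair (Aop G ℝ ψ) (fun _ => (1 : ℝ)) = ∑ x ∈ s, ∑ y ∈ G.neighborFinset x, (φ y) ^ 2 := by
      rw [pair_eq_sum_of_subset _ _ s subset_union_right]
      refine Finset.sum_congr rfl fun x _ => ?_
      rw [Aop_apply, mul_one]
      refine Finset.sum_congr rfl fun y _ => ?_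
      simp [hψ]
    have a2 : pair (Aop G ℝ ψ) (fun _ => (1 : ℝ)) = (d : ℝ) * ∑ x ∈ s, (φ x) ^ 2 := by
      rw [pair_Aop]
      have hsub : ψ.support ⊆ s := by
        intro x hx
        apply Finset.mem_union_left
        rw [Finsupp.mem_support_iff] at hx ⊢
        intro h0; apply hx; simp [hψ, h0]
      rw [pair_eq_sum_of_subset _ _ s hsub, Finset.mul_sum]
      refine Finset.sum_congr rfl fun x _ => ?_
      simp [hψ, hd x, mul_comm]
    rw [← a1, a2]
  have e3 : ∑ x ∈ s, ∑ y ∈ G.neighborFinset x, (φ x - φ y) ^ 2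
      = ∑ x ∈ s, ((d : ℝ) * (φ x) ^ 2 - 2 * (φ x * ∑ w ∈ G.neighborFinset x, φ w)
        + ∑ y ∈ G.neighborFinset x, (φ y) ^ 2) := by
    refine Finset.sum_congr rfl fun x _ => ?_
    have : ∀ y ∈ G.neighborFinset x, (φ x - φ y) ^ 2 = (φ x) ^ 2 - 2 * (φ x * φ y) + (φ y) ^ 2 := by
      intro y _; ring
    rw [Finset.sum_congr rfl this, Finset.sum_add_distrib, Finset.sum_sub_distrib, ← Finset.mul_sum,
      ← Finset.mul_sum]
    simp [hd x]
  rw [e3, Finset.sum_add_distrib, e2, e1, Finset.mul_sum, Finset.mul_sum, ← Finset.sum_add_distrib]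
  refine Finset.sum_congr rfl fun x _ => ?_
  ring

lemma Lap_nonneg (hd : ∀ v, G.degree v = d) (φ : V →₀ ℝ) : 0 ≤ pair φ (Lap G d φ) := by
  obtain ⟨s, _, h⟩ := quad G hd φ
  have : 0 ≤ ∑ x ∈ s, ∑ y ∈ G.neighborFinset x, (φ x - φ y) ^ 2 :=
    Finset.sum_nonneg fun x _ => Finset.sum_nonneg fun y _ => sq_nonneg _
  linarith

lemma Lap_pos [Infinite V] (hd : ∀ v, G.degree v = d) (hc : G.Connected) (φ : V →₀ ℝ)
    (hφ : φ ≠ 0) : 0 < pair φ (Lap G d φ) := by
  classical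
  rcases (Lap_nonneg G hd φ).lt_or_eq with h | h
  · exact h
  exfalso
  obtain ⟨s, hs, h2⟩ := quad G hd φ
  rw [← h, mul_zero] at h2
  have h3 : ∀ x ∈ s, ∀ y ∈ G.neighborFinset x, (φ x - φ y) ^ 2 = 0 := by
    intro x hx y hy
    have := (Finset.sum_eq_zero_iff_of_nonneg (fun x _ => Finset.sum_nonneg fun y _ => sq_nonneg _)).mp
      h2.symm x hx
    exact (Finset.sum_eq_zero_iff_of_nonneg (fun y _ => sq_nonneg _)).mp this y hy
  obtain ⟨x0, hx0⟩ := Finsupp.support_nonempty_iff.mpr hφ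
  have h4 : ∀ y, y ∈ φ.support := by
    intro y
    obtain ⟨w⟩ := hc.preconnected x0 y
    induction w with
    | nil => exact hx0
    | cons hadj _ ih =>
      apply ih
      have := h3 _ (hs hx0) _ (by simpa using hadj)
      rw [Finsupp.mem_support_iff] at hx0 ⊢
      have h5 := pow_eq_zero_iff (two_ne_zero) |>.mp this
      intro h6; apply hx0; linarith
  exact (Set.infinite_univ (α := V)) (Set.Finite.subset φ.support.finite_toSet (fun y _ => by simpa using h4 y))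

lemma pair_self_nonneg (φ : V →₀ ℝ) : 0 ≤ pair φ φ := by
  rw [pair_eq_sum]
  exact Finset.sum_nonneg fun x _ => mul_self_nonneg _

lemma pair_self_pos (φ : V →₀ ℝ) (hφ : φ ≠ 0) : 0 < pair φ φ := by
  rw [pair_eq_sum]
  obtain ⟨x0, hx0⟩ := Finsupp.support_nonempty_iff.mpr hφ
  apply Finset.sum_pos' (fun x _ => mul_self_nonneg _)
  exact ⟨x0, hx0, mul_self_pos.mpr (Finsupp.mem_support_iff.mp hx0)⟩

/-- the cone of positive operators that are polynomials in the Laplacian -/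
structure Good (B : Module.End ℝ (V →₀ ℝ)) : Prop where
  comm : Commute (Lap G d) B
  pos : ∀ φ, 0 ≤ pair φ (B φ)
  pos' : ∀ φ, 0 ≤ pair φ (Lap G d (B φ))

@[simp] lemma pair_zero_right (φ : V →₀ ℝ) : pair φ (0 : V → ℝ) = 0 := by
  simp [pair_eq_sum]

lemma Good.zero : Good G (d := d) 0 := ⟨Commute.zero_right _, fun φ => by simp,
  fun φ => by simp⟩

lemma Good.one (hd : ∀ v, G.degree v = d) : Good G (d := d) 1 :=
  ⟨Commute.one_right _, fun φ => by simpa using pair_self_nonneg φ,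
    fun φ => by simpa using Lap_nonneg G hd φ⟩

lemma Good.add {B C : Module.End ℝ (V →₀ ℝ)} (hB : Good G (d := d) B) (hC : Good G (d := d) C) :
    Good G (d := d) (B + C) := by
  refine ⟨hB.comm.add_right hC.comm, fun φ => ?_, fun φ => ?_⟩
  · have := add_nonneg (hB.pos φ) (hC.pos φ)
    rw [LinearMap.add_apply, pair_comm φ, pair_add, pair_comm _ φ, pair_comm _ φ]
    exact this
  · have := add_nonneg (hB.pos' φ) (hC.pos' φ)
    rw [LinearMap.add_apply, map_add, pair_comm φ, pair_add, pair_comm _ φ, pair_comm _ φ]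
    exact this

lemma Good.mul {B : Module.End ℝ (V →₀ ℝ)} (hB : Good G (d := d) B) :
    Good G (d := d) (Lap G d * B) := by
  refine ⟨(Commute.refl _).mul_right hB.comm, fun φ => ?_, fun φ => ?_⟩
  · simpa [Module.End.mul_apply] using hB.pos' φ
  · rw [Module.End.mul_apply, ← pair_Lap, ← Module.End.mul_apply, hB.comm.eq, Module.End.mul_apply]
    exact hB.pos _

lemma Good_J (hd : ∀ v, G.degree v = d) (m : ℕ) :
    Good G (d := d) (J G ℝ d m) ∧ Good G (d := d) (J G ℝ d (m + 1) - J G ℝ d m - 1) := by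
  induction m with
  | zero =>
    have e0 : J G ℝ d (((0 : ℕ) : ℤ) + 1) - J G ℝ d ((0 : ℕ) : ℤ) - 1 = 0 := by
      apply LinearMap.ext
      intro φ
      rw [Nat.cast_zero, zero_add, J_zero, J_one]
      simp
    rw [e0, Nat.cast_zero, J_zero]
    exact ⟨Good.zero G, Good.zero G⟩
  | succ m ih =>
    obtain ⟨h1, h2⟩ := ih
    have e1 : J G ℝ d ((m + 1 : ℕ) : ℤ) = J G ℝ d m + (J G ℝ d (m + 1) - J G ℝ d m - 1) + 1 := by
      push_cast; abel
    have g1 : Good G (d := d) (J G ℝ d ((m + 1 : ℕ) : ℤ)) := by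
      rw [e1]; exact (h1.add G h2).add G (Good.one G hd)
    refine ⟨g1, ?_⟩
    have e2 : J G ℝ d (((m + 1 : ℕ) : ℤ) + 1) - J G ℝ d ((m + 1 : ℕ) : ℤ) - 1
        = (J G ℝ d (m + 1) - J G ℝ d m - 1) + Lap G d * J G ℝ d ((m + 1 : ℕ) : ℤ) := by
      rw [J_add_one, Top_eq, add_mul, smul_mul_assoc, one_mul]
      push_cast
      rw [two_smul, add_sub_cancel_right]
      abel
    rw [e2]
    exact h2.add G (g1.mul G)

lemma Q_step (hd : ∀ v, G.degree v = d) (m : ℕ) (φ : V →₀ ℝ) :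
    pair φ (J G ℝ d m φ) + pair φ φ ≤ pair φ (J G ℝ d (m + 1) φ) := by
  have := (Good_J G hd m).2.pos φ
  rw [LinearMap.sub_apply, LinearMap.sub_apply, Module.End.one_apply, pair_comm φ, pair_sub,
    pair_sub, pair_comm _ φ, pair_comm _ φ] at this
  linarith

lemma Q_mono (hd : ∀ v, G.degree v = d) {m n : ℕ} (h : m ≤ n) (φ : V →₀ ℝ) :
    pair φ (J G ℝ d m φ) ≤ pair φ (J G ℝ d n φ) := by
  induction n, h using Nat.le_induction with
  | base => exact le_rfl
  | succ n _ ih =>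
    have := Q_step G hd n φ
    have h2 := pair_self_nonneg φ
    push_cast at this ⊢
    linarith

lemma Q_pos (hd : ∀ v, G.degree v = d) {m : ℕ} (hm : 0 < m) (φ : V →₀ ℝ) (hφ : φ ≠ 0) :
    0 < pair φ (J G ℝ d m φ) := by
  have h1 := Q_mono G hd (Nat.succ_le_of_lt hm) φ
  have h2 := Q_step G hd 0 φ
  have h3 := pair_self_pos φ hφ
  simp only [Nat.cast_zero, J_zero, zero_add, LinearMap.zero_apply, pair_comm φ 0, pair_zero] at h2
  simp only [Nat.succ_eq_add_one, zero_add, Nat.cast_one] at h1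
  linarith [Finsupp.coe_zero (M := ℝ) (α := V)]

end Pool.Agent.R692.HL
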